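import Pool.Agent.H620R2.GaugeS.Defs

/-!
# Optimization problems and counterexample computations relative to an oracle

Numbers are written as bit strings by the bijection `str`. Polynomial time relative to an oracle
(`IsFP`), the levels `Σ_i` of the polynomial hierarchy relative to an oracle (`IsSigma`) and null
sets of oracles for a gauge (`Null`) are the ones of `Pool.Agent.H620R2.Gauge.Defs` and
`Pool.Agent.H620R2.GaugeS.Defs`.
-/

set_option autoImplicit false

namespace Pool.Agent.H943R4.CX

open Pool.Agent.NPC Pool.Agent.H620R2.Gauge

/-- The set of pairs `(x, y)` with `C x y`, as a language. -/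
def pairLang (C : ℕ → ℕ → Prop) : Set (List Bool) :=
  {s | ∃ x y : ℕ, s = pairBits (str x) (str y) ∧ C x y}

/-- `(C, ρ)` is an optimization problem relative to the oracle `A` with `C` in `Π_i` relative to
`A`: `C x 0` holds for all `x`, `C x y` implies `y ≤ x`, the complement of `C` is in `Σ_i` relative
to `A`, and the function `ρ` is computable in polynomial time relative to `A`. -/
structure OptProblem (A : Oracle) (i : ℕ) (C : ℕ → ℕ → Prop) (ρ : ℕ → ℕ) : Prop where
  /-- the number `0` is a feasible solution -/
  zero : ∀ x, C x 0
  /-- feasible solutions are bounded -/
  le : ∀ x y, C x y → y ≤ x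
  /-- the set of the feasible solutions is in `Π_i` -/
  pi : IsSigma A i (pairLang C)ᶜ
  /-- the cost function is computable in polynomial time -/
  cost : ∃ R : List Bool → List Bool, IsFP A R ∧ ∀ y, R (str y) = str (ρ y)

/-- The number `z` is a counterexample to the optimality of `y` for `x`: `z ≤ x`, and it is not
the case that `y` is feasible and that `z` is not feasible if its cost is larger. -/
def Counter (C : ℕ → ℕ → Prop) (ρ : ℕ → ℕ) (x y z : ℕ) : Prop :=
  z ≤ x ∧ ¬ (C x y ∧ (ρ y < ρ z → ¬ C x z))

/-- The input `x` together with the first `t` answers of the adversary. -/
def hist (x : ℕ) (z : ℕ → ℕ) : ℕ → List Bool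
  | 0 => str x
  | t + 1 => pairBits (str (z t)) (hist x z t)

/-- The set `S` as an oracle. -/
noncomputable def char (S : Set (List Bool)) : Oracle := by
  classical
  exact fun w => decide (w ∈ S)

/-- Some counterexample computation with oracle `S`, without a constant bound for the number of
questions to the adversary, computes the optimization problem `(C, ρ)`: there is a polynomial-time
computable function `F` relative to `S` that gives from the input and the counterexamples received
so far the next number presented to the adversary, such that for every input `x` and all answers
`z 0, z 1, ...` of the adversary, one of the first `q (|x|)` answers `z t` is not a counterexample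
to the optimality of the number presented in this round. (So an adversary that answers correctly
has to admit within `q (|x|)` rounds that the number presented is optimal, whatever the adversary's
strategy.) -/
def Computes (S : Set (List Bool)) (C : ℕ → ℕ → Prop) (ρ : ℕ → ℕ) : Prop :=
  ∃ (F : List Bool → List Bool) (q : Polynomial ℕ), IsFP (char S) F ∧
    ∀ (x : ℕ) (z : ℕ → ℕ), ∃ t < q.eval (str x).length, ∀ y : ℕ,
      F (hist x z t) = str y → ¬ Counter C ρ x y (z t)

/-- Every optimization problem with feasible solutions in `Π_i` relative to `A` is computed by some
counterexample computation with an oracle in `Σ_i` relative to `A`. -/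
def AllComputed (A : Oracle) (i : ℕ) : Prop :=
  ∀ (C : ℕ → ℕ → Prop) (ρ : ℕ → ℕ), OptProblem A i C ρ →
    ∃ S : Set (List Bool), IsSigma A i S ∧ Computes S C ρ

end Pool.Agent.H943R4.CX
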