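import Pool.Agent.H943R4.CX.Obj

/-! Decision trees with values -/

set_option autoImplicit false

namespace Pool.Agent.H943R4.CX

open Finset H568R2 Pool.Agent.H676 Pool.Agent.H620R2.Gauge Pool.Agent.H591R3.PHG Pool.Agent.NPC
open Pool.Agent.H943R4.BA

theorem DTv.map {I α β : Type} [DecidableEq I] (φ : α → β) {k : ℕ} {f : (I → Bool) → α}
    (h : DTv k f) : DTv k (fun z => φ (f z)) := by
  induction k generalizing f with
  | zero => obtain ⟨c, hc⟩ := h; exact ⟨φ c, fun x => congrArg φ (hc x)⟩
  | succ k ih =>
    rcases h with ⟨c, hc⟩ | ⟨i, hi⟩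
    · exact Or.inl ⟨φ c, fun x => congrArg φ (hc x)⟩
    · exact Or.inr ⟨i, fun b => ih (hi b)⟩

namespace F

theorem const {I α : Type} [DecidableEq I] (k : ℕ) {f : (I → Bool) → α}
    (h : ∃ c, ∀ x, f x = c) : DTv k f := by
  cases k with
  | zero => exact h
  | succ k => exact Or.inl h

theorem succ {I α : Type} [DecidableEq I] {k : ℕ} {f : (I → Bool) → α}
    (h : DTv k f) : DTv (k + 1) f := by
  induction k generalizing f with
  | zero => exact Or.inl h
  | succ k ih =>
    rcases h with hc | ⟨i, hi⟩
    · exact Or.inl hc
    · exact Or.inr ⟨i, fun b => ih (hi b)⟩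

end F

theorem DTv.mono {I α : Type} [DecidableEq I] {k k' : ℕ} (hk : k ≤ k') {f : (I → Bool) → α}
    (h : DTv k f) : DTv k' f := by
  induction hk with
  | refl => exact h
  | step _ ih => exact F.succ ih

namespace F

theorem upd {I α : Type} [DecidableEq I] {k : ℕ} {f : (I → Bool) → α}
    (h : DTv k f) (i : I) (b : Bool) : DTv k (fun z => f (Function.update z i b)) := by
  induction k generalizing f with
  | zero => obtain ⟨c, hc⟩ := h; exact ⟨c, fun x => hc _⟩
  | succ k ih =>
    rcases h with ⟨c, hc⟩ | ⟨i0, hi⟩
    · exact Or.inl ⟨c, fun x => hc _⟩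
    · by_cases e : i0 = i
      · subst e
        exact succ (hi b)
      · refine Or.inr ⟨i0, fun b' => ?_⟩
        have h1 := ih (hi b')
        have h2 : (fun z : I → Bool => f (Function.update (Function.update z i b) i0 b')) =
            fun z => f (Function.update (Function.update z i0 b') i b) := by
          funext z
          rw [Function.update_comm (Ne.symm e)]
        rw [h2] at h1
        exact h1

theorem comp {I α : Type} [DecidableEq I] {r k : ℕ} {g : (I → Bool) → Bool}
    {F : Bool → (I → Bool) → α} (hg : DTr r g) (hF : ∀ b, DTv k (F b)) :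
    DTv (r + k) (fun z => F (g z) z) := by
  induction r generalizing g F with
  | zero =>
    obtain ⟨c, hc⟩ := hg
    have h1 : (fun z => F (g z) z) = F c := by
      funext z; rw [hc]
    rw [h1, Nat.zero_add]
    exact hF c
  | succ r ih =>
    rcases hg with ⟨c, hc⟩ | ⟨i, hi⟩
    · have h1 : (fun z => F (g z) z) = F c := by
        funext z; rw [hc]
      rw [h1]
      exact DTv.mono (by omega) (hF c)
    · rw [show r + 1 + k = (r + k) + 1 by omega]
      exact Or.inr ⟨i, fun b => ih (F := fun c z => F c (Function.update z i b)) (hi b)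
        (fun c => upd (hF c) i b)⟩

theorem run {J : Type} [DecidableEq J] (M : Alg) {r : ℕ}
    (G : List Bool → (J → Bool) → Bool) (hG : ∀ w, DTr r (G w)) (y : List Bool) :
    ∀ (n : ℕ) (acc : List Bool), DTv (n * r) (fun z : J → Bool => M.run (fun w => G w z) y n acc) := by
  intro n
  induction n with
  | zero =>
    intro acc
    exact const _ ⟨none, fun z => rfl⟩
  | succ n ih =>
    intro acc
    rcases hq : M.D (pairBits y acc) with _ | ⟨c, q⟩
    · exact const _ ⟨some [], fun z => by simp [Alg.run, hq]⟩
    · cases c with
      | true => exact const _ ⟨some q, fun z => by simp [Alg.run, hq]⟩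
      | false =>
        have h2 : (fun z : J → Bool => M.run (fun w => G w z) y (n + 1) acc) =
            fun z => (fun (b : Bool) (z : J → Bool) => M.run (fun w => G w z) y n (acc ++ [b]))
              (G q z) z := by
          funext z
          simp [Alg.run, hq]
        rw [h2, show (n + 1) * r = r + n * r by ring]
        exact comp (hG q) (fun b => ih (acc ++ [b]))

end F

/-- an algorithm whose oracle answers are decision trees is a decision tree -/
theorem dtv_out {J : Type} [Fintype J] [DecidableEq J] (M : Alg) {r : ℕ}
    (G : List Bool → (J → Bool) → Bool) (hG : ∀ w, DTr r (G w)) (y : List Bool) :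
    DTv (M.p.eval y.length * r) (fun z : J → Bool => M.out (fun w => G w z) y) :=
  F.run M G hG y _ []

end Pool.Agent.H943R4.CX
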