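import Pool.Agent.H943R4.CX.Obj

/-! The game as a process -/

set_option autoImplicit false

namespace Pool.Agent.H943R4.CX

open Finset hiding val
open H568R2 Pool.Agent.H676 Pool.Agent.H620R2.Gauge Pool.Agent.H591R3.PHG Pool.Agent.NPC
open Pool.Agent.H943R4.BA

namespace B

theorem mono {I : Type} [DecidableEq I] {D : ℕ} {h : (I → Bool) → ℕ} (hp : Proc D h) :
    ∀ {D' : ℕ}, D ≤ D' → Proc D' h := by
  induction hp with
  | zero D => intro D' _; exact Proc.zero D'
  | le D h h' _ hle ih => intro D' hD; exact Proc.le D' h h' (ih hD) hle
  | free D h i _ ih => intro D' hD; exact Proc.free D' h i (fun b => ih b hD)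
  | luck D h h' i _ _ hle ih1 ih2 =>
    intro D' hD
    obtain ⟨E, rfl⟩ : ∃ E, D' = E + 1 := ⟨D' - 1, by omega⟩
    exact Proc.luck E h h' i (ih1 (by omega)) (ih2 (by omega)) hle

section know
variable {I : Type} [DecidableEq I]

theorem ow_some {k : I → Option Bool} {i : I} {c : Bool} (h : k i = some c) (z : I → Bool) :
    val k z i = c := by
  simp [val, h]

theorem ow_upd {k : I → Option Bool} {i : I} (h : k i = none) (z : I → Bool) (b : Bool) :
    val k (Function.update z i b) = val (Function.update k i (some b)) z := by
  funext j
  by_cases e : j = i
  · subst e; simp [val, h]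
  · simp [val, Function.update_of_ne e]

theorem ow_upd' {k : I → Option Bool} {i : I} (z : I → Bool) (b : Bool) :
    val (Function.update k i (some b)) z = Function.update (val k z) i b := by
  funext j
  by_cases e : j = i
  · subst e; simp [val]
  · simp [val, Function.update_of_ne e]

end know

section game
variable {X : Type} {Y : ℕ}

theorem feas_succ (v : X × Fin Y → Bool) (j : X) (i : Fin Y) :
    feas v j (i.val + 1) ↔ v (j, i) = true := by
  unfold feas
  constructor
  · rintro (h | ⟨i', h, h'⟩)
    · omega
    · have : i = i' := Fin.ext (by omega)
      rw [this]; exact h'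
  · intro h
    exact Or.inr ⟨i, rfl, h⟩

theorem feas_le {v : X × Fin Y → Bool} {j : X} {y : ℕ} (h : feas v j y) : y ≤ Y := by
  rcases h with h | ⟨i, h, _⟩
  · omega
  · have := i.isLt
    omega

theorem adv_zero {v : X × Fin Y → Bool} {j : X} {y : ℕ} (h : ¬ feas v j y) : adv v j y = 0 := by
  unfold adv
  rw [dif_neg]
  exact fun h' => h h'.1

theorem adv_eq {v : X × Fin Y → Bool} {j : X} {y m : ℕ} (h : feas v j y) (h1 : y < m)
    (h2 : feas v j m) (h3 : ∀ m', y < m' → m' < m → ¬ feas v j m') : adv v j y = m := by
  classical
  have hex : feas v j y ∧ ∃ y', y < y' ∧ feas v j y' := ⟨h, m, h1, h2⟩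
  unfold adv
  rw [dif_pos hex, Nat.find_eq_iff]
  exact ⟨⟨h1, h2⟩, fun n hn hn' => h3 n hn'.1 hn hn'.2⟩

end game

section main
variable {X : Type} [Fintype X] [DecidableEq X] {Y : ℕ}

open Classical in
/-- the number of the rows of `J` that are won and not bad -/
noncomputable def cnt (s : X × Fin Y → Option Bool) (mv : X → List ℕ → (X × Fin Y → Bool) → ℕ)
    (q : ℕ) (J : Finset X) (a : X × Fin Y → Bool) : ℕ :=
  (J.filter (fun j => Win (val s a) j (fun h => mv j h a) q ∧ ¬ Bad s (val s a) j q)).card

omit [Fintype X] in
theorem cnt_erase (s : X × Fin Y → Option Bool) (mv : X → List ℕ → (X × Fin Y → Bool) → ℕ)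
    (q : ℕ) (J : Finset X) (j : X) (a : X × Fin Y → Bool) :
    cnt s mv q J a ≤ cnt s mv q (J.erase j) a + 1 := by
  classical
  unfold cnt
  rw [Finset.filter_erase]
  have := Finset.pred_card_le_card_erase (a := j) (s := J.filter (fun j =>
    Win (val s a) j (fun h => mv j h a) q ∧ ¬ Bad s (val s a) j q))
  omega

omit [Fintype X] in
theorem cnt_erase' (s : X × Fin Y → Option Bool) (mv : X → List ℕ → (X × Fin Y → Bool) → ℕ)
    (q : ℕ) (J : Finset X) (j : X) (a : X × Fin Y → Bool)
    (h : ¬ (Win (val s a) j (fun h => mv j h a) q ∧ ¬ Bad s (val s a) j q)) :
    cnt s mv q J a ≤ cnt s mv q (J.erase j) a := by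
  classical
  unfold cnt
  apply Finset.card_le_card
  intro x hx
  rw [Finset.mem_filter] at hx ⊢
  refine ⟨Finset.mem_erase.2 ⟨?_, hx.1⟩, hx.2⟩
  intro e
  subst e
  exact h hx.2

/-- the state of the computation for the row `j` -/
structure GS (s : X × Fin Y → Option Bool) (mv : X → List ℕ → (X × Fin Y → Bool) → ℕ)
    (J : Finset X) (j : X) (k : X × Fin Y → Option Bool) (h : List ℕ) (e : ℕ) : Prop where
  nt : ∀ i, s (j, i) ≠ some true
  pl : ∀ z, play (val s (val k z)) j (fun l => mv j l (val k z)) h.length = h
  nb : ∀ z, ∀ t < h.length, ¬ best (val s (val k z)) j
    (mv j (play (val s (val k z)) j (fun l => mv j l (val k z)) t) (val k z))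
  kn : ∀ i : Fin Y, i.val + 1 ≤ e → s (j, i) ≠ none ∨ k (j, i) ≠ none
  tr : ∀ i : Fin Y, k (j, i) = some true → i.val + 1 ≤ e
  ct : (univ.filter (fun i : Fin Y => s (j, i) = none ∧ k (j, i) = some true)).card ≤ h.length
  ee : e = 0 ∨ ∃ i : Fin Y, e = i.val + 1 ∧ s (j, i) = none ∧ k (j, i) = some true
  cl : ∀ j' ∈ J.erase j, ∀ i, k (j', i) ≠ some true
  le : ∀ y ∈ h, y ≤ Y

variable {s : X × Fin Y → Option Bool} {mv : X → List ℕ → (X × Fin Y → Bool) → ℕ}
  {J : Finset X} {j : X} {k : X × Fin Y → Option Bool} {h : List ℕ} {e : ℕ}

omit [Fintype X] in
/-- the value of an unknown bit that is read is false -/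
theorem GS.fls (G : GS s mv J j k h e) {i : X × Fin Y} (hi : k i = none) :
    GS s mv J j (Function.update k i (some false)) h e := by
  have key : ∀ p : X × Fin Y, Function.update k i (some false) p = some true → k p = some true := by
    intro p hp
    by_cases e : p = i
    · subst e; simp at hp
    · rwa [Function.update_of_ne e] at hp
  have key2 : ∀ p : X × Fin Y, k p ≠ none → Function.update k i (some false) p ≠ none := by
    intro p hp
    by_cases e : p = i
    · subst e; simp
    · rwa [Function.update_of_ne e]
  refine ⟨G.nt, ?_, ?_, ?_, ?_, ?_, ?_, ?_, G.le⟩
  · intro z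
    rw [← ow_upd hi]
    exact G.pl _
  · intro z
    rw [← ow_upd hi]
    exact G.nb _
  · intro i' hi'
    exact (G.kn i' hi').imp id (key2 _)
  · intro i' hi'
    exact G.tr i' (key _ hi')
  · refine le_trans (Finset.card_le_card ?_) G.ct
    intro i' hi'
    rw [Finset.mem_filter] at hi' ⊢
    exact ⟨hi'.1, hi'.2.1, key _ hi'.2.2⟩
  · rcases G.ee with h0 | ⟨i', h1, h2, h3⟩
    · exact Or.inl h0
    · refine Or.inr ⟨i', h1, h2, ?_⟩
      have : (j, i') ≠ i := by
        intro e
        rw [e, hi] at h3
        exact absurd h3 (by simp)
      rwa [Function.update_of_ne this]
  · intro j' hj' i' hi'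
    exact G.cl j' hj' i' (key _ hi')

omit [Fintype X] in
/-- an unknown bit of another row is true -/
theorem GS.tru (G : GS s mv J j k h e) {i : X × Fin Y} (hi : k i = none) (hij : i.1 ≠ j) :
    GS s mv (J.erase i.1) j (Function.update k i (some true)) h e := by
  have hne : ∀ i' : Fin Y, (j, i') ≠ i := by
    intro i' e
    apply hij
    rw [← e]
  refine ⟨G.nt, ?_, ?_, ?_, ?_, ?_, ?_, ?_, G.le⟩
  · intro z
    rw [← ow_upd hi]
    exact G.pl _
  · intro z
    rw [← ow_upd hi]
    exact G.nb _
  · intro i' hi'
    rw [Function.update_of_ne (hne i')]
    exact G.kn i' hi'
  · intro i' hi'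
    rw [Function.update_of_ne (hne i')] at hi'
    exact G.tr i' hi'
  · refine le_trans (Finset.card_le_card ?_) G.ct
    intro i' hi'
    rw [Finset.mem_filter, Function.update_of_ne (hne i')] at hi'
    rw [Finset.mem_filter]
    exact hi'
  · rcases G.ee with h0 | ⟨i', h1, h2, h3⟩
    · exact Or.inl h0
    · refine Or.inr ⟨i', h1, h2, ?_⟩
      rwa [Function.update_of_ne (hne i')]
  · intro j' hj' i' hi'
    rw [Finset.mem_erase, Finset.mem_erase] at hj'
    have : (j', i') ≠ i := by
      intro e
      exact hj'.2.1 (by rw [← e])
    rw [Function.update_of_ne this] at hi'
    exact G.cl j' (Finset.mem_erase.2 ⟨hj'.1, hj'.2.2⟩) i' hi'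

omit [Fintype X] in
/-- the next round -/
theorem GS.nxt (G : GS s mv J j k h e) {e1 : ℕ} (he1 : e1 ≤ Y)
    (H : ∀ z, ¬ best (val s (val k z)) j (mv j h (val k z)) ∧
      adv (val s (val k z)) j (mv j h (val k z)) = e1) : GS s mv J j k (e1 :: h) e := by
  refine ⟨G.nt, ?_, ?_, G.kn, G.tr, ?_, G.ee, G.cl, ?_⟩
  · intro z
    rw [List.length_cons, play, G.pl z, (H z).2]
  · intro z t ht
    rw [List.length_cons] at ht
    rcases Nat.lt_succ_iff_lt_or_eq.1 ht with h1 | h1
    · exact G.nb z t h1
    · rw [h1, G.pl z]
      exact (H z).1
  · rw [List.length_cons]
    exact G.ct.trans (Nat.le_succ _)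
  · intro y hy
    rcases List.mem_cons.1 hy with h1 | h1
    · rw [h1]; exact he1
    · exact G.le y h1

omit [Fintype X] in
/-- the feasible numbers up to `e` are known -/
theorem GS.feas_iff (G : GS s mv J j k h e) (z z' : X × Fin Y → Bool) {y : ℕ} (hy : y ≤ e) :
    feas (val s (val k z)) j y ↔ feas (val s (val k z')) j y := by
  rcases Nat.eq_zero_or_pos y with h0 | h0
  · subst h0
    exact ⟨fun _ => Or.inl rfl, fun _ => Or.inl rfl⟩
  · by_cases hY : y ≤ Y
    · obtain ⟨i, hi⟩ : ∃ i : Fin Y, y = i.val + 1 := ⟨⟨y - 1, by omega⟩, by simp only; omega⟩
      subst hi
      rw [feas_succ, feas_succ]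
      have h1 := G.kn i hy
      unfold val
      cases hs : s (j, i) with
      | some c => simp [hs]
      | none =>
        cases hk : k (j, i) with
        | some c => simp [hs, hk]
        | none =>
          rcases h1 with h1 | h1
          · exact absurd hs h1
          · exact absurd hk h1
    · constructor
      · intro h1; exact absurd (feas_le h1) hY
      · intro h1; exact absurd (feas_le h1) hY

omit [Fintype X] in
theorem GS.feas_e (G : GS s mv J j k h e) (z : X × Fin Y → Bool) :
    feas (val s (val k z)) j e := by
  rcases G.ee with h0 | ⟨i, h1, h2, h3⟩
  · exact Or.inl h0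
  · rw [h1, feas_succ]
    simp [val, h2, h3]

omit [Fintype X] in
/-- the row is bad if everything is known -/
theorem GS.bad (G : GS s mv J j k h e) {q : ℕ} (hq : h.length ≤ q)
    (ha : ∀ i : Fin Y, s (j, i) ≠ none ∨ k (j, i) ≠ none) (z : X × Fin Y → Bool) :
    Bad s (val s (val k z)) j q := by
  right
  refine le_trans (Finset.card_le_card ?_) (G.ct.trans hq)
  intro i hi
  rw [Finset.mem_filter] at hi ⊢
  refine ⟨hi.1, ?_⟩
  have h1 := hi.2
  unfold val at h1
  cases hs : s (j, i) with
  | some c =>
    rw [hs] at h1
    simp only [Option.getD_some] at h1
    exact absurd (by rw [hs, h1]) (G.nt i)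
  | none =>
    rw [hs] at h1
    cases hk : k (j, i) with
    | some c =>
      rw [hk] at h1
      simp only [Option.getD_none, Option.getD_some] at h1
      exact ⟨rfl, by rw [h1]⟩
    | none =>
      rcases ha i with h2 | h2
      · exact absurd hs h2
      · exact absurd hk h2

variable {q D : ℕ}

/-- one row -/
theorem round (n : ℕ)
    (hmv : ∀ j (h : List ℕ), h.length < q → (∀ y ∈ h, y ≤ Y) → DTv D (mv j h))
    (IH : ∀ (J : Finset X) (k : X × Fin Y → Option Bool), J.card ≤ n →
      (∀ j ∈ J, ∀ i, k (j, i) ≠ some true) →
      Proc (n * (q * (D + 1))) (fun z => cnt s mv q J (val k z))) (j : X) :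
    ∀ (r : ℕ) (J : Finset X) (k : X × Fin Y → Option Bool) (h : List ℕ) (e : ℕ),
      GS s mv J j k h e → (J.erase j).card ≤ n → h.length + r = q →
      Proc (r * (D + 1) + n * (q * (D + 1))) (fun z => cnt s mv q J (val k z)) := by
  intro r
  induction r with
  | zero =>
    intro J k h e G hJ hr
    rw [Nat.zero_mul, Nat.zero_add]
    refine Proc.le _ _ _ (IH (J.erase j) k hJ G.cl) ?_
    intro z
    apply cnt_erase'
    rintro ⟨⟨t, ht, hb⟩, _⟩
    exact G.nb z t (by omega) hb
  | succ r ihr =>
    intro J k h e G hJ hr
    have hlen : h.length < q := by omega
    obtain ⟨rest, hrest⟩ : ∃ rest, rest = r * (D + 1) + n * (q * (D + 1)) := ⟨_, rfl⟩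
    rw [← hrest] at ihr
    have hdrop : ∀ (J : Finset X) (k : X × Fin Y → Option Bool), (J.erase j).card ≤ n →
        (∀ j' ∈ J.erase j, ∀ i, k (j', i) ≠ some true) →
        Proc rest (fun z => cnt s mv q (J.erase j) (val k z)) := by
      intro J k h1 h2
      exact mono (IH (J.erase j) k h1 h2) (by rw [hrest]; omega)
    -- the scan
    have scan : ∀ (w m : ℕ), m + w = Y → ∀ (J : Finset X) (k : X × Fin Y → Option Bool),
        GS s mv J j k h e → (J.erase j).card ≤ n → (∀ z, mv j h (val k z) = e) → e ≤ m →
        (∀ i : Fin Y, i.val < m → s (j, i) ≠ none ∨ k (j, i) ≠ none) →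
        Proc rest (fun z => cnt s mv q J (val k z)) := by
      intro w
      induction w with
      | zero =>
        intro m hm J k G hJ _ _ ha
        refine Proc.le _ _ _ (hdrop J k hJ G.cl) ?_
        intro z
        apply cnt_erase'
        rintro ⟨_, hb⟩
        apply hb
        exact G.bad hlen.le (fun i => ha i (by have := i.isLt; omega)) z
      | succ w ihw =>
        intro m hm J k G hJ hy hem ha
        obtain ⟨i, hi⟩ : ∃ i : Fin Y, i.val = m := ⟨⟨m, by omega⟩, rfl⟩
        by_cases hkn : s (j, i) ≠ none ∨ k (j, i) ≠ none
        · refine ihw (m + 1) (by omega) J k G hJ hy (by omega) ?_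
          intro i' hi'
          by_cases e1 : i'.val = m
          · have : i' = i := Fin.ext (by omega)
            rw [this]; exact hkn
          · exact ha i' (by omega)
        · rw [not_or, not_not, not_not] at hkn
          obtain ⟨hs, hk⟩ := hkn
          refine Proc.free _ _ (j, i) ?_
          intro b
          have hfun : (fun z => cnt s mv q J (val k (Function.update z (j, i) b))) =
              fun z => cnt s mv q J (val (Function.update k (j, i) (some b)) z) := by
            funext z
            rw [ow_upd hk]
          rw [hfun]
          cases b with
          | false =>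
            refine ihw (m + 1) (by omega) J _ (G.fls hk) hJ ?_ (by omega) ?_
            · intro z
              rw [← ow_upd hk]
              exact hy _
            · intro i' hi'
              by_cases e1 : i'.val = m
              · have : i' = i := Fin.ext (by omega)
                rw [this]
                right
                simp
              · have hne : (j, i') ≠ (j, i) := by
                  intro e2
                  rw [Prod.mk.injEq] at e2
                  exact e1 (by rw [e2.2, hi])
                rw [Function.update_of_ne hne]
                exact ha i' (by omega)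
          | true =>
            have hne : ∀ i' : Fin Y, i' ≠ i → (j, i') ≠ (j, i) := by
              intro i' h1 h2
              rw [Prod.mk.injEq] at h2
              exact h1 h2.2
            -- the answer of the adversary
            have hadv : ∀ z, ¬ best (val s (val (Function.update k (j, i) (some true)) z)) j e ∧
                adv (val s (val (Function.update k (j, i) (some true)) z)) j e = m + 1 := by
              intro z
              have hf1 : feas (val s (val (Function.update k (j, i) (some true)) z)) j (m + 1) := by
                rw [← hi, feas_succ]
                simp [val, hs]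
              have hf0 : feas (val s (val (Function.update k (j, i) (some true)) z)) j e := by
                rw [← ow_upd hk]
                exact G.feas_e _
              refine ⟨fun hb => hb.2 (m + 1) (by omega) hf1, ?_⟩
              apply adv_eq hf0 (by omega) hf1
              intro m' h1 h2 h3
              obtain ⟨i', hi'⟩ : ∃ i' : Fin Y, m' = i'.val + 1 :=
                ⟨⟨m' - 1, by omega⟩, by simp only; omega⟩
              rw [hi', feas_succ] at h3
              have hii : i' ≠ i := by
                intro e2
                rw [e2] at hi'
                omega
              unfold val at h3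
              rw [Function.update_of_ne (hne i' hii)] at h3
              cases hs' : s (j, i') with
              | some c =>
                rw [hs'] at h3
                simp only [Option.getD_some] at h3
                exact G.nt i' (by rw [hs', h3])
              | none =>
                cases hk' : k (j, i') with
                | some c =>
                  rw [hs', hk'] at h3
                  simp only [Option.getD_none, Option.getD_some] at h3
                  have := G.tr i' (by rw [hk', h3])
                  omega
                | none =>
                  rcases ha i' (by omega) with h4 | h4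
                  · exact h4 hs'
                  · exact h4 hk'
            have hG : GS s mv J j (Function.update k (j, i) (some true)) ((m + 1) :: h)
                (m + 1) := by
              refine ⟨G.nt, ?_, ?_, ?_, ?_, ?_, ?_, ?_, ?_⟩
              · intro z
                rw [List.length_cons, play]
                have h1 := G.pl (Function.update z (j, i) true)
                have h2 := hy (Function.update z (j, i) true)
                rw [ow_upd hk] at h1 h2
                rw [h1, h2, (hadv z).2]
              · intro z t ht
                have h1 := G.pl (Function.update z (j, i) true)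
                have h2 := hy (Function.update z (j, i) true)
                have h3 := G.nb (Function.update z (j, i) true) t
                rw [ow_upd hk] at h1 h2 h3
                rw [List.length_cons] at ht
                rcases Nat.lt_succ_iff_lt_or_eq.1 ht with h4 | h4
                · exact h3 h4
                · rw [h4, h1, h2]
                  exact (hadv z).1
              · intro i' hi'
                by_cases e1 : i' = i
                · rw [e1]; right; simp
                · rw [Function.update_of_ne (hne i' e1)]
                  have : i'.val ≠ m := fun e2 => e1 (Fin.ext (by omega))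
                  exact ha i' (by omega)
              · intro i' hi'
                by_cases e1 : i' = i
                · rw [e1]; omega
                · rw [Function.update_of_ne (hne i' e1)] at hi'
                  have := G.tr i' hi'
                  omega
              · rw [List.length_cons]
                refine le_trans (Finset.card_le_card (t := insert i (univ.filter
                  (fun i : Fin Y => s (j, i) = none ∧ k (j, i) = some true))) ?_) ?_
                · intro i' hi'
                  rw [Finset.mem_filter] at hi'
                  rw [Finset.mem_insert, Finset.mem_filter]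
                  by_cases e1 : i' = i
                  · exact Or.inl e1
                  · rw [Function.update_of_ne (hne i' e1)] at hi'
                    exact Or.inr hi'
                · exact (Finset.card_insert_le _ _).trans (Nat.succ_le_succ G.ct)
              · exact Or.inr ⟨i, by omega, hs, by simp⟩
              · intro j' hj' i'
                have : (j', i') ≠ (j, i) := by
                  intro e2
                  rw [Prod.mk.injEq] at e2
                  exact (Finset.mem_erase.1 hj').1 e2.1
                rw [Function.update_of_ne this]
                exact G.cl j' hj' i'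
              · intro y hy'
                rcases List.mem_cons.1 hy' with h1 | h1
                · rw [h1]; omega
                · exact G.le y h1
            exact ihr J _ _ _ hG hJ (by rw [List.length_cons]; omega)
    -- the number presented is known
    have present : ∀ (J : Finset X) (k : X × Fin Y → Option Bool) (y : ℕ),
        GS s mv J j k h e → (J.erase j).card ≤ n → (∀ z, mv j h (val k z) = y) →
        Proc (rest + 1) (fun z => cnt s mv q J (val k z)) := by
      intro J k y G hJ hy
      -- not feasible
      have hinf : ∀ k : X × Fin Y → Option Bool, GS s mv J j k h e → (∀ z, mv j h (val k z) = y) →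
          (∀ z, ¬ feas (val s (val k z)) j y) →
          Proc rest (fun z => cnt s mv q J (val k z)) := by
        intro k G hy hf
        refine ihr J k (0 :: h) e (G.nxt (Nat.zero_le _) ?_) hJ (by rw [List.length_cons]; omega)
        intro z
        rw [hy z]
        exact ⟨fun hb => hf z hb.1, adv_zero (hf z)⟩
      -- feasible and at most e
      have hfe : y ≤ e → feas (val s (val k (fun _ => false))) j y →
          Proc rest (fun z => cnt s mv q J (val k z)) := by
        intro hye hf
        rcases Nat.lt_or_eq_of_le hye with h1 | h1
        · have hex : ∃ m, y < m ∧ feas (val s (val k (fun _ => false))) j m :=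
            ⟨e, h1, G.feas_e _⟩
          classical
          obtain ⟨m, hm⟩ : ∃ m, m = Nat.find hex := ⟨_, rfl⟩
          have hm1 := Nat.find_spec hex
          rw [← hm] at hm1
          have hme : m ≤ e := by
            rw [hm]
            exact Nat.find_min' hex ⟨h1, G.feas_e _⟩
          have hm2 : ∀ m', y < m' → m' < m → ¬ feas (val s (val k (fun _ => false))) j m' := by
            intro m' h2 h3 h4
            rw [hm] at h3
            exact Nat.find_min hex h3 ⟨h2, h4⟩
          refine ihr J k (m :: h) e (G.nxt (feas_le hm1.2) ?_) hJ
            (by rw [List.length_cons]; omega)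
          intro z
          rw [hy z]
          have hfz : feas (val s (val k z)) j y := (G.feas_iff _ _ hye).1 hf
          refine ⟨fun hb => hb.2 e h1 (G.feas_e z), ?_⟩
          apply adv_eq hfz hm1.1 ((G.feas_iff _ _ hme).1 hm1.2)
          intro m' h2 h3 h4
          exact hm2 m' h2 h3 ((G.feas_iff _ _ (by omega)).1 h4)
        · have heY : e ≤ Y := feas_le (G.feas_e (fun _ => false))
          refine scan (Y - e) e (by omega) J k G hJ (by rw [← h1]; exact hy) le_rfl ?_
          intro i hi
          exact G.kn i (by omega)
      rcases Nat.eq_zero_or_pos y with h0 | h0
      · exact mono (hfe (by omega) (Or.inl h0)) (Nat.le_succ _)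
      · by_cases hY : y ≤ Y
        · obtain ⟨i, hi⟩ : ∃ i : Fin Y, y = i.val + 1 := ⟨⟨y - 1, by omega⟩, by simp only; omega⟩
          cases hs : s (j, i) with
          | some c =>
            refine mono (hinf k G hy ?_) (Nat.le_succ _)
            intro z hf
            rw [hi, feas_succ] at hf
            unfold val at hf
            rw [hs] at hf
            simp only [Option.getD_some] at hf
            exact G.nt i (by rw [hs, hf])
          | none =>
            cases hk : k (j, i) with
            | some c =>
              cases c with
              | false =>
                refine mono (hinf k G hy ?_) (Nat.le_succ _)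
                intro z hf
                rw [hi, feas_succ] at hf
                unfold val at hf
                rw [hs, hk] at hf
                simp at hf
              | true =>
                have h1 := G.tr i hk
                refine mono (hfe (by omega) ?_) (Nat.le_succ _)
                rw [hi, feas_succ]
                simp [val, hs, hk]
            | none =>
              refine Proc.luck rest _ (fun z => cnt s mv q (J.erase j)
                (val (Function.update k (j, i) (some true)) z)) (j, i) ?_ ?_ ?_
              · have hfun : (fun z => cnt s mv q J (val k (Function.update z (j, i) false))) =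
                    fun z => cnt s mv q J (val (Function.update k (j, i) (some false)) z) := by
                  funext z
                  rw [ow_upd hk]
                rw [hfun]
                apply hinf _ (G.fls hk)
                · intro z
                  rw [← ow_upd hk]
                  exact hy _
                · intro z hf
                  rw [hi, feas_succ] at hf
                  unfold val at hf
                  rw [hs] at hf
                  simp at hf
              · apply hdrop J _ hJ
                intro j' hj' i'
                have : (j', i') ≠ (j, i) := by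
                  intro e2
                  rw [Prod.mk.injEq] at e2
                  exact (Finset.mem_erase.1 hj').1 e2.1
                rw [Function.update_of_ne this]
                exact G.cl j' hj' i'
              · intro z
                rw [ow_upd hk]
                exact cnt_erase s mv q J j _
        · refine mono (hinf k G hy ?_) (Nat.le_succ _)
          intro z hf
          exact hY (feas_le hf)
    -- the evaluation
    have eval : ∀ (d : ℕ) (f : (X × Fin Y → Bool) → ℕ), DTv d f →
        ∀ (J : Finset X) (k : X × Fin Y → Option Bool),
        GS s mv J j k h e → (J.erase j).card ≤ n → (∀ z, mv j h (val k z) = f (val k z)) →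
        Proc (d + (rest + 1)) (fun z => cnt s mv q J (val k z)) := by
      intro d
      induction d with
      | zero =>
        rintro f ⟨c, hc⟩ J k G hJ hf
        rw [Nat.zero_add]
        exact present J k c G hJ (fun z => by rw [hf z, hc])
      | succ d ihd =>
        intro f hfd J k G hJ hf
        rcases hfd with ⟨c, hc⟩ | ⟨i, hi⟩
        · exact mono (present J k c G hJ (fun z => by rw [hf z, hc])) (by omega)
        · cases hk : k i with
          | some c =>
            refine mono (ihd _ (hi c) J k G hJ ?_) (by omega)
            intro z
            rw [hf z]
            have h1 : Function.update (val k z) i c = val k z := by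
              rw [Function.update_eq_self_iff]
              exact (ow_some hk z).symm
            rw [h1]
          | none =>
            rw [show d + 1 + (rest + 1) = (d + (rest + 1)) + 1 by omega]
            refine Proc.luck _ _ (fun z => cnt s mv q (J.erase i.1)
                (val (Function.update k i (some true)) z)) i ?_ ?_ ?_
            · have hfun : (fun z => cnt s mv q J (val k (Function.update z i false))) =
                  fun z => cnt s mv q J (val (Function.update k i (some false)) z) := by
                funext z
                rw [ow_upd hk]
              rw [hfun]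
              refine ihd _ (hi false) J _ (G.fls hk) hJ ?_
              intro z
              rw [← ow_upd hk, hf, ow_upd hk, ow_upd']
              simp
            · by_cases hij : i.1 = j
              · refine mono ?_ (show rest ≤ d + (rest + 1) by omega)
                rw [hij]
                apply hdrop J _ hJ
                intro j' hj' i'
                have : (j', i') ≠ i := by
                  intro e2
                  rw [← e2] at hij
                  exact (Finset.mem_erase.1 hj').1 hij
                rw [Function.update_of_ne this]
                exact G.cl j' hj' i'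
              · refine ihd _ (hi true) _ _ (G.tru hk hij) ?_ ?_
                · refine le_trans (Finset.card_le_card ?_) hJ
                  exact Finset.erase_subset_erase _ (Finset.erase_subset _ _)
                · intro z
                  rw [← ow_upd hk, hf, ow_upd hk, ow_upd']
                  simp
            · intro z
              rw [ow_upd hk]
              exact cnt_erase s mv q J i.1 _
    have hfin := eval D (mv j h) (hmv j h hlen G.le) J k G hJ (fun z => rfl)
    have e2 : (r + 1) * (D + 1) + n * (q * (D + 1)) = D + (rest + 1) := by
      rw [hrest]; ring
    rw [e2]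
    exact hfin

theorem rows (hmv : ∀ j (h : List ℕ), h.length < q → (∀ y ∈ h, y ≤ Y) → DTv D (mv j h)) :
    ∀ (n : ℕ) (J : Finset X) (k : X × Fin Y → Option Bool), J.card ≤ n →
      (∀ j ∈ J, ∀ i, k (j, i) ≠ some true) →
      Proc (n * (q * (D + 1))) (fun z => cnt s mv q J (val k z)) := by
  intro n
  induction n with
  | zero =>
    intro J k hJ _
    have : J = ∅ := Finset.card_eq_zero.1 (Nat.le_zero.1 hJ)
    subst this
    refine Proc.le _ _ _ (Proc.zero _) ?_
    intro z
    simp [cnt]
  | succ n ih =>
    intro J k hJ hk
    rcases Finset.eq_empty_or_nonempty J with h0 | ⟨j, hj⟩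
    · subst h0
      refine Proc.le _ _ _ (Proc.zero _) ?_
      intro z
      simp [cnt]
    · have hc : (J.erase j).card ≤ n := by
        rw [Finset.card_erase_of_mem hj]
        omega
      have hcl : ∀ j' ∈ J.erase j, ∀ i, k (j', i) ≠ some true :=
        fun j' hj' => hk j' (Finset.mem_of_mem_erase hj')
      by_cases hs : ∃ i, s (j, i) = some true
      · refine Proc.le _ _ _ (mono (ih (J.erase j) k hc hcl) ?_) ?_
        · exact Nat.mul_le_mul_right _ (Nat.le_succ n)
        · intro z
          apply cnt_erase'
          rintro ⟨_, hb⟩
          exact hb (Or.inl hs)
      · rw [not_exists] at hs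
        have h1 := round (s := s) (mv := mv) n hmv ih j q J k [] 0 ?_ hc (by simp)
        · have e2 : (n + 1) * (q * (D + 1)) = q * (D + 1) + n * (q * (D + 1)) := by ring
          rw [e2]
          exact h1
        · refine ⟨hs, ?_, ?_, ?_, ?_, ?_, Or.inl rfl, hcl, ?_⟩
          · intro z; rfl
          · intro z t ht; simp at ht
          · intro i hi; omega
          · intro i hi; exact absurd hi (hk j hj i)
          · rw [List.length_nil, Nat.le_zero, Finset.card_eq_zero, Finset.filter_eq_empty_iff]
            rintro i _ ⟨_, h2⟩
            exact hk j hj i h2
          · intro y hy; simp at hy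

end main

end B

open Classical in
theorem proc_game {X : Type} [Fintype X] [DecidableEq X] {Y q D : ℕ}
    (s : X × Fin Y → Option Bool) (mv : X → List ℕ → (X × Fin Y → Bool) → ℕ)
    (hmv : ∀ j (h : List ℕ), h.length < q → (∀ y ∈ h, y ≤ Y) → DTv D (mv j h)) :
    Proc (Fintype.card X * (q * (D + 1))) (fun z : X × Fin Y → Bool =>
      (univ.filter (fun j => Win (val s z) j (fun h => mv j h z) q ∧
        ¬ Bad s (val s z) j q)).card) := by
  have h := B.rows (s := s) (mv := mv) hmv (Fintype.card X) univ (fun _ => none)
    (by rw [Finset.card_univ]) (fun _ _ _ => by simp)
  have e : ∀ z : X × Fin Y → Bool, val (fun _ => none) z = z := fun z => rfl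
  simp only [e] at h
  exact h

end Pool.Agent.H943R4.CX
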