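import Pool.Agent.H943R4.CX.Obj
import Pool.Agent.H591R3.PHG.LangTr

/-!
# Task J: inputs and strings (helper152)
-/

set_option autoImplicit false

namespace Pool.Agent.H943R4.CX

open Finset H568R2 Pool.Agent.H676 Pool.Agent.H620R2.Gauge Pool.Agent.H591R3.PHG Pool.Agent.NPC
open Pool.Agent.H943R4.BA

namespace J

theorem pairBits_app (u v t : List Bool) : pairBits u (v ++ t) = pairBits u v ++ t := by
  simp [pairBits]

theorem enc_app (as : List ℕ) (w : ℕ) (z t : List Bool) :
    enc as w (z ++ t) = enc as w z ++ t := by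
  induction as using List.reverseRecOn with
  | nil => rw [LangTrAux.enc_nil, LangTrAux.enc_nil, pairBits_app]
  | append_singleton as a ih =>
    rw [LangTrAux.enc_append, LangTrAux.enc_append, ih, pairBits_app]

/-- the value at a root -/
theorem tr_leaves {X : Type} (A : Oracle) (as : List ℕ) (w : ℕ) (xs : X → List Bool) (j : X) :
    Tr (w :: pw as) (leaves xs as w A) j =
      (as.foldl (fun v a => up a v) (bitv A w)) (xs j) := by
  rw [← LangTrAux.Tr_addr xs as (bitv A w) j]
  show Tr (pw as) (fun g : Idx X (pw as) => decide (∀ i : Fin w,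
    A (addr xs as g ++ List.replicate i.val true) = false)) j = _
  congr 1
  funext g
  unfold bitv
  congr 1
  apply propext
  constructor
  · intro h i hi
    exact h ⟨i, hi⟩
  · intro h i
    exact h i.val i.isLt

theorem nodeV_enc {i : ℕ} (A : Oracle) (as : List ℕ) (hi : as.length = i) (w : ℕ)
    (z : List Bool) : nodeV i A (enc as w z) =
      (as.foldl (fun v a => up a v) (bitv A w)) (enc as w z) := by
  subst hi
  unfold nodeV
  rw [LangTrAux.parse_enc]
  dsimp only
  rw [unpair_pairBits]
  dsimp only
  rw [List.length_replicate, List.foldr_reverse]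

end J

open J

theorem str_xin (as : List ℕ) (n L j : ℕ) : str (xin as n L j) = enc as (8 * n) (tl n L j) :=
  str_idx _

theorem rts_len (as : List ℕ) (n L K : ℕ) (p : Fin K × Fin (2 ^ L)) :
    (rts as n L K p).length = 2 * as.sum + as.length + 16 * n + 3 * L + n + 13 := by
  unfold rts tl
  rw [enc_len, List.length_append, length_pairBits, List.length_replicate, length_bitsOf,
    length_bitsOf]
  ring

theorem len_xin (as : List ℕ) (n L j : ℕ) :
    (str (xin as n L j)).length = 2 * as.sum + as.length + 16 * n + 2 * L + n + 13 := by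
  rw [str_xin]
  unfold tl
  rw [enc_len, length_pairBits, List.length_replicate, length_bitsOf]
  ring

theorem rts_inj (as : List ℕ) (n L K : ℕ) (hK : K ≤ 2 ^ (n + 11)) :
    Function.Injective (rts as n L K) := by
  intro p p' h
  unfold rts at h
  have h1 := enc_inj as (8 * n) h
  have h2 := List.append_inj h1 (by
    unfold tl
    rw [length_pairBits, length_pairBits, length_bitsOf, length_bitsOf])
  have h3 : p.2 = p'.2 := Fin.ext (bitsOf_inj p.2.isLt p'.2.isLt h2.2)
  have h4 := congrArg unpair h2.1
  unfold tl at h4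
  rw [unpair_pairBits, unpair_pairBits] at h4
  have h5 := (Prod.ext_iff.1 h4).2
  have h6 : p.1 = p'.1 := Fin.ext (bitsOf_inj (lt_of_lt_of_le p.1.isLt hK)
    (lt_of_lt_of_le p'.1.isLt hK) h5)
  exact Prod.ext h6 h3

/-- the feasible solutions are given by the values of the trees -/
theorem feas_iff (A : Oracle) {as : List ℕ} {i : ℕ} (hi : as.length = i) (n L K : ℕ) (j : Fin K)
    (y : ℕ) :
    feas (fun p : Fin K × Fin (2 ^ L) =>
      Tr (8 * n :: pw as) (leaves (rts as n L K) as (8 * n) A) p) j y ↔
      CC i A (xin as n L j.val) y := by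
  have hL : LL i (xin as n L j.val) = L := by
    unfold LL
    rw [str_xin, ← hi, LangTrAux.parse_enc]
    dsimp only
    rw [unpair_pairBits]
    dsimp only
    unfold tl
    rw [unpair_pairBits]
    dsimp only
    rw [List.length_replicate]
  have hroot : ∀ i' : Fin (2 ^ L), root i (xin as n L j.val) (i'.val + 1) =
      rts as n L K (j, i') := by
    intro i'
    unfold root
    rw [hL, str_xin, ← enc_app]
    rfl
  have hval : ∀ i' : Fin (2 ^ L), Tr (8 * n :: pw as) (leaves (rts as n L K) as (8 * n) A) (j, i') =
      nodeV i A (root i (xin as n L j.val) (i'.val + 1)) := by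
    intro i'
    rw [tr_leaves, hroot]
    exact (nodeV_enc A as hi (8 * n) _).symm
  have hbig : 2 ^ L ≤ xin as n L j.val := by
    have h1 := le_idx (str (xin as n L j.val))
    rw [idx_str, len_xin] at h1
    have h2 : 2 ^ (L + 1) ≤ 2 ^ (2 * as.sum + as.length + 16 * n + 2 * L + n + 13) :=
      Nat.pow_le_pow_right (by norm_num) (by omega)
    have h3 : 1 ≤ 2 ^ L := Nat.one_le_two_pow
    rw [pow_succ] at h2
    omega
  unfold feas CC
  rw [hL]
  constructor
  · rintro (h | ⟨i', rfl, h⟩)
    · exact Or.inl h
    · right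
      have h1 : i'.val + 1 ≤ 2 ^ L := i'.isLt
      refine ⟨h1.trans hbig, h1, ?_⟩
      rw [← hval]
      exact h
  · rintro (h | ⟨_, h1, h2⟩)
    · exact Or.inl h
    · rcases Nat.eq_zero_or_pos y with h0 | h0
      · exact Or.inl h0
      · right
        refine ⟨⟨y - 1, by omega⟩, by simp; omega, ?_⟩
        beta_reduce
        rw [hval]
        have : (⟨y - 1, by omega⟩ : Fin (2 ^ L)).val + 1 = y := by simp; omega
        rw [this]
        exact h2

end Pool.Agent.H943R4.CX
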