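import Pool.Agent.H943R4.CX.Obj
import Pool.Agent.H620R2.GaugeR.R1
import Pool.Agent.H620R2.Gauge.U1
import Pool.Agent.H620R2.Gauge.S
import Pool.Agent.H620R2.GaugeS.Low

/-! N: an oracle that is hard for polynomial space makes all optimization problems easy
(helper602) -/

set_option autoImplicit false

namespace Pool.Agent.H943R4.CX

open Pool.Agent.NPC Pool.Agent.H620R2.Gauge Pool.Agent.H622R2

namespace N

/-! ### The oracle is on every level -/

theorem quant_inner (V : List Bool → List Bool) (m : ℕ) :
    ∀ (k : ℕ) (b : Bool) (j : ℕ) (y : List Bool),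
      Quant m (fun z => V (U1.inner (k + j) z)) k b y ↔ V (U1.inner j y) = [true] := by
  intro k
  induction k with
  | zero =>
    intro b j y
    rw [Nat.zero_add]
    exact Iff.rfl
  | succ k ih =>
    intro b j y
    have e : k + 1 + j = k + (j + 1) := by omega
    rw [e]
    have hin : ∀ w : List Bool, U1.inner (j + 1) (pairBits w y) = U1.inner j y := by
      intro w
      simp only [U1.inner, unpair_pairBits]
    cases b with
    | true =>
      constructor
      · rintro ⟨w, _, hw⟩
        rw [ih, hin] at hw
        exact hw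
      · intro h
        refine ⟨[], Nat.zero_le _, ?_⟩
        rw [ih, hin]
        exact h
    | false =>
      constructor
      · intro h
        have hw := h [] (Nat.zero_le _)
        rw [ih, hin] at hw
        exact hw
      · intro h w _
        rw [ih, hin]
        exact h

theorem isSigma_of_isP {A : Oracle} {L : Set (List Bool)} (h : IsP A L) (i : ℕ) :
    IsSigma A i L := by
  obtain ⟨V, hV, hL⟩ := h
  refine ⟨fun z => V (U1.inner (i + 0) z), 0, hV.precomp (U1.poly_inner (i + 0)), fun x => ?_⟩
  rw [quant_inner]
  exact hL x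

/-! ### Closure properties of `P` relative to the oracle -/

theorem isP_pre {A : Oracle} {L : Set (List Bool)} (h : IsP A L) {g : List Bool → List Bool}
    (hg : Poly g) : IsP A {y | g y ∈ L} := by
  obtain ⟨V, hV, hL⟩ := h
  exact ⟨fun y => V (g y), hV.precomp hg, fun x => hL (g x)⟩

theorem isP_test {A : Oracle} {R : List Bool → List Bool} (hR : IsFP A R)
    {d : List Bool → Bool} (hd : Poly d) : IsP A {y | d (R y) = true} := by
  have h1 : Poly (fun z : List Bool => [d z]) := Poly.cons hd (NPC.Poly.const [])
  refine ⟨fun y => [d (R y)], IsFP.comp (IsFP.of_poly h1) hR, fun x => ?_⟩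
  show d (R x) = true ↔ [d (R x)] = [true]
  simp

theorem isP_and {A : Oracle} {L L' : Set (List Bool)} (h : IsP A L) (h' : IsP A L') :
    IsP A (L ∩ L') := by
  obtain ⟨V, hV, hL⟩ := h
  obtain ⟨V', hV', hL'⟩ := h'
  have h1 := isP_test (IsFP.pair hV hV')
    (d := fun z => decide ((unpair z).1 = [true] ∧ (unpair z).2 = [true]))
    (Poly.decide_and (Poly.decide_eq (Poly.fst poly_unpair) (NPC.Poly.const _))
      (Poly.decide_eq (Poly.snd poly_unpair) (NPC.Poly.const _)))
  have e : {y | (fun z => decide ((unpair z).1 = [true] ∧ (unpair z).2 = [true]))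
      (pairBits (V y) (V' y)) = true} = L ∩ L' := by
    ext y
    simp only [Set.mem_ofPred_eq, unpair_pairBits, decide_eq_true_eq, Set.mem_inter_iff, hL, hL']
  rwa [e] at h1

theorem isP_of_space {A : Oracle}
    (hA : ∀ L, IsPSPACE A L → Reduces L {x | A x = true}) {L : Set (List Bool)}
    (h : IsPSPACE A L) : IsP A L := isP_of_reduces (hA L h)

theorem isP_compl {A : Oracle}
    (hA : ∀ L, IsPSPACE A L → Reduces L {x | A x = true}) {L : Set (List Bool)}
    (h : IsP A L) : IsP A Lᶜ := isP_of_space hA h.isPSPACE.compl

theorem isP_ex {A : Oracle}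
    (hA : ∀ L, IsPSPACE A L → Reduces L {x | A x = true}) {L : Set (List Bool)}
    (h : IsP A L) {β : List Bool → ℕ} (hβ : UPoly β) :
    IsP A {y | ∃ w : List Bool, w.length ≤ β y ∧ pairBits w y ∈ L} :=
  isP_of_space hA (h.isPSPACE.exists_short hβ)

/-! ### Numbers of strings -/

theorem sval_eq (y : List Bool) : sval y = valB (y.reverse ++ [true]) := by
  rw [← bits_sval, valB_bits]

theorem poly_idx {α : Type} [TEnc α] {f : α → List Bool} (hf : Poly f) :
    Poly (fun a => sval (f a)) := by
  have h : Poly (fun a => valB ((f a).reverse ++ [true])) :=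
    Poly.valBits (Poly.append (Poly.reverse hf) (NPC.Poly.const _))
  exact h.congr fun a => (sval_eq _).symm

theorem length_str_mono {y x : ℕ} (h : y ≤ x) : (str y).length ≤ (str x).length := by
  rw [length_str, length_str]
  exact Nat.log_mono_right (by omega)

/-- The string coded by the digits of the number plus one. -/
def dec (w : List Bool) : List Bool := (Nat.bits (valB w)).reverse.tail

theorem poly_dec {α : Type} [TEnc α] {f : α → List Bool} (hf : Poly f) :
    Poly (fun a => dec (f a)) :=
  Poly.tail (Poly.reverse (Poly.natBits (Poly.valBits hf)))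

theorem valB_replicate (k : ℕ) : valB (List.replicate k false) = 0 := by
  induction k with
  | zero => rfl
  | succ k ih => simp [List.replicate_succ, ih]

theorem exists_code (x y : ℕ) (h : y ≤ x) :
    ∃ w : List Bool, w.length = (str x).length + 2 ∧ dec w = str y := by
  have h1 : (Nat.bits (y + 1)).length ≤ (str x).length + 2 := by
    have h2 : (str y).length = (Nat.bits (y + 1)).length - 1 := by
      unfold str
      simp
    have h3 := length_str_mono h
    omega
  refine ⟨Nat.bits (y + 1) ++ List.replicate ((str x).length + 2 - (Nat.bits (y + 1)).length) false,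
    ?_, ?_⟩
  · rw [List.length_append, List.length_replicate]
    omega
  · unfold dec
    rw [valB_append, valB_replicate, valB_bits, Nat.mul_zero, Nat.add_zero]
    rfl

/-! ### The language of the optimal numbers -/

/-- the number `y` is optimal for `x` -/
def Opt (C : ℕ → ℕ → Prop) (ρ : ℕ → ℕ) (x y : ℕ) : Prop :=
  C x y ∧ ∀ z ≤ x, ρ y < ρ z → ¬ C x z

theorem exists_opt {A : Oracle} {i : ℕ} {C : ℕ → ℕ → Prop} {ρ : ℕ → ℕ}
    (h : OptProblem A i C ρ) (x : ℕ) : ∃ y ≤ x, Opt C ρ x y := by
  classical
  have hne : ((Finset.range (x + 1)).filter (fun y => C x y)).Nonempty :=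
    ⟨0, Finset.mem_filter.2 ⟨Finset.mem_range.2 (by omega), h.zero x⟩⟩
  obtain ⟨y, hy, hmax⟩ := Finset.exists_max_image _ ρ hne
  obtain ⟨h1, h2⟩ := Finset.mem_filter.1 hy
  refine ⟨y, h.le x y h2, h2, fun z hz hlt hC => ?_⟩
  have h3 := hmax z (Finset.mem_filter.2 ⟨Finset.mem_range.2 (by omega), hC⟩)
  omega

/-- the feasible pairs, for all strings -/
theorem isP_feas {A : Oracle}
    (hA : ∀ L, IsPSPACE A L → Reduces L {x | A x = true}) {i : ℕ} {C : ℕ → ℕ → Prop}
    {ρ : ℕ → ℕ} (h : OptProblem A i C ρ) :
    IsP A {v | C (idx (unpair v).1) (idx (unpair v).2)} := by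
  have h1 : IsP A (pairLang C) := by
    have h2 := h.pi.isPSPACE.compl
    rw [compl_compl] at h2
    exact isP_of_space hA h2
  have h3 := isP_pre h1 (g := fun v => pairBits (unpair v).1 (unpair v).2)
    (poly_pairBits (Poly.fst poly_unpair) (Poly.snd poly_unpair))
  have e : {v | pairBits (unpair v).1 (unpair v).2 ∈ pairLang C} =
      {v | C (idx (unpair v).1) (idx (unpair v).2)} := by
    ext v
    constructor
    · rintro ⟨x, y, hxy, hC⟩
      have h4 := congrArg unpair hxy
      rw [unpair_pairBits, unpair_pairBits, Prod.mk.injEq] at h4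
      show C (idx (unpair v).1) (idx (unpair v).2)
      rw [h4.1, h4.2, idx_str, idx_str]
      exact hC
    · intro hC
      refine ⟨idx (unpair v).1, idx (unpair v).2, ?_, hC⟩
      rw [str_idx, str_idx]
  rwa [e] at h3

/-- the optimal pairs, for all strings -/
theorem isP_opt {A : Oracle}
    (hA : ∀ L, IsPSPACE A L → Reduces L {x | A x = true}) {i : ℕ} {C : ℕ → ℕ → Prop}
    {ρ : ℕ → ℕ} (h : OptProblem A i C ρ) :
    IsP A {v | Opt C ρ (idx (unpair v).1) (idx (unpair v).2)} := by
  have hC := isP_feas hA h
  obtain ⟨R, hR, hRρ⟩ := h.cost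
  have hRidx : ∀ s, sval (R s) = ρ (idx s) + 1 := by
    intro s
    have h1 := hRρ (idx s)
    rw [str_idx] at h1
    have h2 := idx_str (ρ (idx s))
    rw [← h1, idx_eq] at h2
    have h3 := sval_pos (R s)
    omega
  have p1 : Poly (fun u : List Bool => (unpair u).1) := Poly.fst poly_unpair
  have p2 : Poly (fun u : List Bool => (unpair u).2) := Poly.snd poly_unpair
  have p21 : Poly (fun u : List Bool => (unpair (unpair u).2).1) := p1.comp p2
  have p22 : Poly (fun u : List Bool => (unpair (unpair u).2).2) := p2.comp p2
  -- the costs are in the wrong order and the new number is small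
  have hT : IsP A {u | idx (unpair u).1 ≤ idx (unpair (unpair u).2).1 ∧
      ρ (idx (unpair (unpair u).2).2) < ρ (idx (unpair u).1)} := by
    have h1 := isP_test (IsFP.pair (IsFP.pair (hR.precomp p22) (hR.precomp p1))
        (IsFP.of_poly (A := A) Poly.id))
      (d := fun z => decide
        (sval (unpair (unpair z).2).1 ≤ sval (unpair (unpair (unpair z).2).2).1 ∧
          sval (unpair (unpair z).1).1 < sval (unpair (unpair z).1).2))
      (Poly.decide_and
        (Poly.decide_le (poly_idx (p1.comp p2)) (poly_idx (p1.comp (p2.comp p2))))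
        (Poly.decide_lt (poly_idx (p1.comp p1)) (poly_idx (p2.comp p1))))
    have e : {y | (fun z => decide
        (sval (unpair (unpair z).2).1 ≤ sval (unpair (unpair (unpair z).2).2).1 ∧
          sval (unpair (unpair z).1).1 < sval (unpair (unpair z).1).2))
        (pairBits (pairBits (R (unpair (unpair y).2).2) (R (unpair y).1)) y) = true} =
        {u | idx (unpair u).1 ≤ idx (unpair (unpair u).2).1 ∧
          ρ (idx (unpair (unpair u).2).2) < ρ (idx (unpair u).1)} := by
      ext y
      simp only [Set.mem_ofPred_eq, unpair_pairBits, decide_eq_true_eq, hRidx, idx_eq]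
      have h2 := sval_pos (unpair y).1
      have h3 := sval_pos (unpair (unpair y).2).1
      constructor
      · rintro ⟨h4, h5⟩
        exact ⟨by omega, by omega⟩
      · rintro ⟨h4, h5⟩
        exact ⟨by omega, by omega⟩
    rwa [e] at h1
  -- the new number is feasible
  have hF := isP_pre hC (g := fun u => pairBits (unpair (unpair u).2).1 (unpair u).1)
    (poly_pairBits p21 p1)
  have hE := isP_ex hA (isP_and hT hF) (β := fun v => (unpair v).1.length) (UPoly.length p1)
  have hN := isP_and hC (isP_compl hA hE)
  have e : {v | C (idx (unpair v).1) (idx (unpair v).2)} ∩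
      {y | ∃ w : List Bool, w.length ≤ (unpair y).1.length ∧ pairBits w y ∈
        {u | idx (unpair u).1 ≤ idx (unpair (unpair u).2).1 ∧
          ρ (idx (unpair (unpair u).2).2) < ρ (idx (unpair u).1)} ∩
        {u | pairBits (unpair (unpair u).2).1 (unpair u).1 ∈
          {v | C (idx (unpair v).1) (idx (unpair v).2)}}}ᶜ =
      {v | Opt C ρ (idx (unpair v).1) (idx (unpair v).2)} := by
    ext v
    simp only [Set.mem_inter_iff, Set.mem_compl_iff, Set.mem_ofPred_eq, unpair_pairBits]
    unfold Opt
    refine and_congr_right fun _ => ?_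
    constructor
    · intro h1 z hz hlt hCz
      refine h1 ⟨str z, ?_, ⟨?_, ?_⟩, ?_⟩
      · have h2 := length_str_mono hz
        rwa [str_idx] at h2
      · rw [idx_str]
        exact hz
      · rw [idx_str]
        exact hlt
      · rw [idx_str]
        exact hCz
    · rintro h1 ⟨w, _, ⟨h2, h3⟩, h4⟩
      exact h1 (idx w) h2 h3 h4
  rwa [e] at hN

/-! ### Search -/

/-- the strings that code optimal numbers and start with a given string -/
theorem isP_prefix {A : Oracle}
    (hA : ∀ L, IsPSPACE A L → Reduces L {x | A x = true}) {O : Set (List Bool)}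
    (hO : IsP A O) :
    IsP A {u | ∃ w : List Bool, w.length = (unpair u).2.length + 2 ∧
      w.take (unpair u).1.length = (unpair u).1 ∧ pairBits (unpair u).2 (dec w) ∈ O} := by
  have p1 : Poly (fun u : List Bool => (unpair u).1) := Poly.fst poly_unpair
  have p2 : Poly (fun u : List Bool => (unpair u).2) := Poly.snd poly_unpair
  have p21 : Poly (fun u : List Bool => (unpair (unpair u).2).1) := p1.comp p2
  have p22 : Poly (fun u : List Bool => (unpair (unpair u).2).2) := p2.comp p2
  have h1 := isP_test (IsFP.of_poly (A := A) Poly.id)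
    (d := fun s => decide ((unpair s).1.length = (unpair (unpair s).2).2.length + 2 ∧
      (unpair s).1.take (unpair (unpair s).2).1.length = (unpair (unpair s).2).1))
    (Poly.decide_and
      (Poly.decide_eq (Poly.length p1) (UPoly.add (UPoly.length p22) (UPoly.const 2)).toPoly)
      (Poly.decide_eq (R1.poly_take p1 (UPoly.length p21)) p21))
  have h2 := isP_pre hO (g := fun s => pairBits (unpair (unpair s).2).2 (dec (unpair s).1))
    (poly_pairBits p22 (poly_dec p1))
  have h3 := isP_ex hA (isP_and h1 h2) (β := fun u => (unpair u).2.length + 2)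
    (UPoly.add (UPoly.length p2) (UPoly.const 2))
  refine Eq.mp (congrArg (IsP A) ?_) h3
  ext u
  simp only [Set.mem_inter_iff, Set.mem_ofPred_eq, unpair_pairBits, decide_eq_true_eq]
  constructor
  · rintro ⟨w, _, ⟨h4, h5⟩, h6⟩
    exact ⟨w, h4, h5, h6⟩
  · rintro ⟨w, h4, h5, h6⟩
    exact ⟨w, h4.le, ⟨h4, h5⟩, h6⟩

/-- the next action of the search algorithm -/
def act (r : List Bool → List Bool) (y : List Bool) : List Bool :=
  if (unpair y).2.length < (unpair y).1.length + 2 then
    false :: r (pairBits ((unpair y).2 ++ [true]) (unpair y).1)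
  else true :: dec (unpair y).2

theorem poly_act {r : List Bool → List Bool} (hr : Poly r) : Poly (act r) := by
  have p1 : Poly (fun u : List Bool => (unpair u).1) := Poly.fst poly_unpair
  have p2 : Poly (fun u : List Bool => (unpair u).2) := Poly.snd poly_unpair
  exact Poly.ite (Poly.decide_lt (Poly.length p2)
      (UPoly.add (UPoly.length p1) (UPoly.const 2)).toPoly)
    (Poly.cons (NPC.Poly.const false) (hr.comp (poly_pairBits
      (Poly.append p2 (NPC.Poly.const [true])) p1)))
    (Poly.cons (NPC.Poly.const true) (poly_dec p2))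

theorem search {A : Oracle}
    (hA : ∀ L, IsPSPACE A L → Reduces L {x | A x = true}) {O : Set (List Bool)}
    (hO : IsP A O)
    (hex : ∀ x : List Bool, ∃ w : List Bool, w.length = x.length + 2 ∧
      pairBits x (dec w) ∈ O) :
    ∃ F : List Bool → List Bool, IsFP A F ∧ ∀ x, pairBits x (F x) ∈ O := by
  obtain ⟨r, hr, hrL⟩ := hA _ (isP_prefix hA hO).isPSPACE
  let M : Alg := ⟨act r, polyTime_of_poly_list (poly_act (poly_of_polyTime hr)),
    Polynomial.X + Polynomial.C 3⟩
  have hD : ∀ x a : List Bool, M.D (pairBits x a) =
      if a.length < x.length + 2 then false :: r (pairBits (a ++ [true]) x)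
      else true :: dec a := by
    intro x a
    show act r (pairBits x a) = _
    unfold act
    rw [unpair_pairBits]
  have hq : ∀ x a : List Bool, A (r (pairBits (a ++ [true]) x)) = true ↔
      ∃ w : List Bool, w.length = x.length + 2 ∧
        w.take (a ++ [true]).length = a ++ [true] ∧ pairBits x (dec w) ∈ O := by
    intro x a
    have h1 := hrL (pairBits (a ++ [true]) x)
    simp only [Set.mem_ofPred_eq, unpair_pairBits] at h1
    exact h1.symm
  have key : ∀ (x : List Bool) (n : ℕ) (a : List Bool), n + a.length = x.length + 2 →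
      (∃ w : List Bool, w.length = x.length + 2 ∧ w.take a.length = a ∧
        pairBits x (dec w) ∈ O) →
      ∃ z, M.run A x (n + 1) a = some z ∧ pairBits x z ∈ O := by
    intro x n
    induction n with
    | zero =>
      rintro a ha ⟨w, h1, h2, h3⟩
      have h4 : w = a := by
        rw [← h2]
        exact (List.take_of_length_le (by omega)).symm
      subst h4
      refine ⟨dec w, ?_, h3⟩
      have h5 : M.D (pairBits x w) = true :: dec w := by
        rw [hD, if_neg (by omega)]
      simp only [Alg.run, h5]
    | succ n ih =>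
      rintro a ha ⟨w, h1, h2, h3⟩
      have h5 : M.D (pairBits x a) = false :: r (pairBits (a ++ [true]) x) := by
        rw [hD, if_pos (by omega)]
      have h6 : M.run A x (n + 1 + 1) a =
          M.run A x (n + 1) (a ++ [A (r (pairBits (a ++ [true]) x))]) := by
        rw [Alg.run]
        simp only [h5]
      rw [h6]
      refine ih _ (by rw [List.length_append, List.length_singleton]; omega) ?_
      cases hb : A (r (pairBits (a ++ [true]) x)) with
      | true => exact (hq x a).1 hb
      | false =>
        refine ⟨w, h1, ?_, h3⟩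
        have h7 : a.length < w.length := by omega
        rw [List.length_append, List.length_singleton, List.take_add_one, h2,
          List.getElem?_eq_getElem h7]
        cases hw : w[a.length] with
        | false => rfl
        | true =>
          exfalso
          have h8 : A (r (pairBits (a ++ [true]) x)) = true := by
            refine (hq x a).2 ⟨w, h1, ?_, h3⟩
            rw [List.length_append, List.length_singleton, List.take_add_one, h2,
              List.getElem?_eq_getElem h7, hw]
            rfl
          rw [hb] at h8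
          exact absurd h8 (by decide)
  have key' : ∀ x : List Bool, ∃ z, M.out A x = some z ∧ pairBits x z ∈ O := by
    intro x
    obtain ⟨w, h1, h2⟩ := hex x
    obtain ⟨z, h3, h4⟩ := key x (x.length + 2) [] (by simp) ⟨w, h1, by simp, h2⟩
    refine ⟨z, ?_, h4⟩
    have h5 : M.p.eval x.length = x.length + 2 + 1 := by
      show (Polynomial.X + Polynomial.C 3 : Polynomial ℕ).eval x.length = _
      rw [Polynomial.eval_add, Polynomial.eval_X, Polynomial.eval_C]
    unfold Alg.out
    rw [h5]
    exact h3
  choose F hF hFO using key'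
  exact ⟨F, ⟨M, hF⟩, hFO⟩

end N

/-- An oracle that is hard for `PSPACE` relative to it makes all optimization problems easy. -/
theorem allComputed_of_hard {A : Oracle}
    (hA : ∀ L, IsPSPACE A L → Reduces L {x | A x = true}) (i : ℕ) : AllComputed A i := by
  intro C ρ h
  have hP : IsP A {x | A x = true} := by
    refine isP_of_reduces ⟨fun x => x, polyTime_id, fun x => Iff.rfl⟩
  refine ⟨{x | A x = true}, N.isSigma_of_isP hP i, ?_⟩
  have hO := N.isP_opt hA h
  obtain ⟨F, hF, hFO⟩ := N.search hA hO (fun x => by
    obtain ⟨y, hy, hopt⟩ := N.exists_opt h (idx x)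
    obtain ⟨w, h1, h2⟩ := N.exists_code (idx x) y hy
    rw [str_idx] at h1
    refine ⟨w, h1, ?_⟩
    rw [h2]
    show N.Opt C ρ (idx (unpair (pairBits x (str y))).1) (idx (unpair (pairBits x (str y))).2)
    rw [unpair_pairBits]
    show N.Opt C ρ (idx x) (idx (str y))
    rw [idx_str]
    exact hopt)
  have hchar : char {x | A x = true} = A := by
    funext w
    unfold char
    by_cases hw : A w = true
    · simp [hw]
    · simp [hw]
  refine ⟨F, 1, by rw [hchar]; exact hF, fun x z => ⟨0, by simp, fun y hy hcnt => ?_⟩⟩
  have h1 := hFO (str x)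
  have h2 : F (str x) = str y := hy
  rw [h2] at h1
  have h3 : N.Opt C ρ (idx (unpair (pairBits (str x) (str y))).1)
    (idx (unpair (pairBits (str x) (str y))).2) := h1
  rw [unpair_pairBits] at h3
  have h4 : N.Opt C ρ x y := by
    have h5 : N.Opt C ρ (idx (str x)) (idx (str y)) := h3
    rwa [idx_str, idx_str] at h5
  obtain ⟨h6, h7⟩ := hcnt
  exact h7 ⟨h4.1, fun hlt => h4.2 (z 0) h6 hlt⟩

end Pool.Agent.H943R4.CX
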