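import Pool.Agent.H943R4.CX.Defs
import Pool.Agent.H943R4.BA.Obj
import Pool.Agent.H591R3.PHG.Event

/-!
# Gauge theorem for counterexample computations: the objects of the proof
-/

set_option autoImplicit false

namespace Pool.Agent.H943R4.CX

open Finset H568R2 Pool.Agent.H676 Pool.Agent.H620R2.Gauge Pool.Agent.H591R3.PHG Pool.Agent.NPC
open Pool.Agent.H943R4.BA

/-- Decision trees of depth `k` with values in `α`. -/
def DTv {I : Type} [DecidableEq I] {α : Type} : ℕ → ((I → Bool) → α) → Prop
  | 0, f => ∃ c, ∀ x, f x = c
  | k + 1, f => (∃ c, ∀ x, f x = c) ∨ ∃ i, ∀ b, DTv k (fun x => f (Function.update x i b))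

/-- `Proc D h`: the function `h` is bounded by the number of hits of a process that reads bits one
after the other, where at most `D` of the bits read are such that the value true counts as a hit,
and arbitrarily many further bits may be read. -/
inductive Proc {I : Type} [DecidableEq I] : ℕ → ((I → Bool) → ℕ) → Prop
  | zero (D : ℕ) : Proc D (fun _ => 0)
  | le (D : ℕ) (h h' : (I → Bool) → ℕ) : Proc D h' → (∀ z, h z ≤ h' z) → Proc D h
  | free (D : ℕ) (h : (I → Bool) → ℕ) (i : I) :
      (∀ b, Proc D (fun z => h (Function.update z i b))) → Proc D h
  | luck (D : ℕ) (h h' : (I → Bool) → ℕ) (i : I) :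
      Proc D (fun z => h (Function.update z i false)) → Proc D h' →
      (∀ z, h (Function.update z i true) ≤ h' z + 1) → Proc (D + 1) h

/-! ### The game -/

section game
variable {X : Type} {Y : ℕ}

/-- the number `y` is feasible for the row `j` -/
def feas (v : X × Fin Y → Bool) (j : X) (y : ℕ) : Prop :=
  y = 0 ∨ ∃ i : Fin Y, y = i.val + 1 ∧ v (j, i) = true

/-- the number `y` is the largest feasible one for the row `j` -/
def best (v : X × Fin Y → Bool) (j : X) (y : ℕ) : Prop :=
  feas v j y ∧ ∀ y', y < y' → ¬ feas v j y'

open Classical in
/-- The answer of the adversary: the least larger feasible number if there is one and `y` is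
feasible, otherwise `0`. -/
noncomputable def adv (v : X × Fin Y → Bool) (j : X) (y : ℕ) : ℕ :=
  if h : feas v j y ∧ ∃ y', y < y' ∧ feas v j y' then Nat.find h.2 else 0

/-- The answers of the adversary in the first `t` rounds, the last one first; `mv` gives the number
presented, from the former answers. -/
noncomputable def play (v : X × Fin Y → Bool) (j : X) (mv : List ℕ → ℕ) : ℕ → List ℕ
  | 0 => []
  | t + 1 => adv v j (mv (play v j mv t)) :: play v j mv t

/-- The largest feasible number is presented in one of the first `q` rounds. -/
def Win (v : X × Fin Y → Bool) (j : X) (mv : List ℕ → ℕ) (q : ℕ) : Prop :=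
  ∃ t < q, best v j (mv (play v j mv t))

/-- Some status in the row `j` is true, or there are at most `q` true values in this row. -/
def Bad (s : X × Fin Y → Option Bool) (v : X × Fin Y → Bool) (j : X) (q : ℕ) : Prop :=
  (∃ i, s (j, i) = some true) ∨ (univ.filter (fun i : Fin Y => v (j, i) = true)).card ≤ q

/-- the same for one row of statuses and random bits -/
def BadRow (q : ℕ) (σ : Fin Y → Option Bool × Bool) : Prop :=
  (∃ i, (σ i).1 = some true) ∨
    (univ.filter (fun i : Fin Y => (σ i).1.getD (σ i).2 = true)).card ≤ q

end game

/-! ### The stages -/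

/-- The expectation of `W0` of the statuses of the roots. -/
noncomputable def WT {X : Type} [Fintype X] [DecidableEq X] (t ξ : ℝ) (smin : ℕ)
    (W0 : (X → Option Bool) → ℝ) : (cs : List ℕ) → (Idx X cs → Option Bool) → ℝ
  | [], s => W0 s
  | c :: cs, s => ∑ ρ : Idx X cs → St c, wt (G := Idx X cs) t t ξ smin s ρ *
      WT t ξ smin W0 cs (fun h => (ρ h).1)

/-- The law of the status of a root. -/
noncomputable def lawit (t ξ : ℝ) (smin : ℕ) : List ℕ → (Option Bool → ℝ) → Option Bool → ℝ
  | [], law => law
  | c :: cs, law => lawit t ξ smin cs (nxt t t ξ smin c law)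

/-- the law of the status of a node of the lowest level of gates -/
noncomputable def law1 (n : ℕ) : Option Bool → ℝ :=
  nxt (1 / 2) (1 / 2 ^ (4 * n)) 0 (8 * n) (8 * n) law0

/-- the law of the status of a root, for the numbers of children `2 ^ a` -/
noncomputable def lawr (n : ℕ) (as : List ℕ) : Option Bool → ℝ :=
  lawit (1 / 2 ^ (4 * n)) (1 / 2 ^ (2 * n)) (8 * n * 2 ^ (4 * n)) (pw as) (law1 n)

/-- the probability of the value true, from the law of the status -/
noncomputable def pT (n : ℕ) (law : Option Bool → ℝ) : ℝ :=
  law none / 2 ^ (4 * n) + law (some true)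

/-! ### The hard optimization problem -/

/-- The value of the tree of NOR gates with `i` levels given by the string `q`. -/
def nodeV (i : ℕ) (A : Oracle) (q : List Bool) : Bool :=
  ((parse i q).1.foldr up (bitv A (unpair (parse i q).2).1.length)) q

/-- The number of bits of the feasible solutions. -/
def LL (i x : ℕ) : ℕ := (unpair (unpair (parse i (str x)).2).2).1.length

/-- The string for the tree of the candidate `y`. -/
def root (i x y : ℕ) : List Bool := str x ++ bitsOf (LL i x) (y - 1)

/-- The hard optimization problem: the number `0` is feasible, and the numbers `y ≤ 2 ^ L`, `y ≤ x`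
for which the tree of `y` has the value true. -/
def CC (i : ℕ) (A : Oracle) (x y : ℕ) : Prop :=
  y = 0 ∨ (y ≤ x ∧ y ≤ 2 ^ LL i x ∧ nodeV i A (root i x y) = true)

/-- the part of the input after the numbers of children -/
def tl (n L : ℕ) (j : ℕ) : List Bool :=
  pairBits (List.replicate L true) (bitsOf (n + 11) j)

/-- The inputs. -/
def xin (as : List ℕ) (n L j : ℕ) : ℕ := idx (enc as (8 * n) (tl n L j))

/-- The strings of the roots. -/
def rts (as : List ℕ) (n L K : ℕ) (p : Fin K × Fin (2 ^ L)) : List Bool :=
  enc as (8 * n) (tl n L p.1.val ++ bitsOf L p.2.val)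

/-- The input with the former answers of the adversary, the last one first. -/
def hs (x : ℕ) : List ℕ → List Bool
  | [] => str x
  | z :: h => pairBits (str z) (hs x h)

/-- The number that is presented by the algorithm `M` with oracle `g`, from the input with the
former answers. -/
def mvd (M : Alg) (g : List Bool → Bool) (y : List Bool) : ℕ :=
  match M.out g y with
  | some s => idx s
  | none => 0

/-- The parameters: the level, the algorithm with its bound for the number of rounds, the verifier
of the oracle in `Σ_i` with its bound for the lengths. -/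
structure ParC : Type where
  /-- the level -/
  i : ℕ
  /-- the algorithm that presents numbers -/
  M : Alg
  /-- the number of rounds -/
  q : Polynomial ℕ
  /-- the verifier -/
  V : Alg
  /-- the bound for the quantified strings -/
  p : Polynomial ℕ

/-- The oracles for which the parameters are good for the hard problem. -/
def EasyC (θ : ParC) : Set Oracle :=
  {A | ∃ (V F : List Bool → List Bool), (∀ x, θ.V.out A x = some (V x)) ∧
    (∀ x, θ.M.out (char {w | Quant (θ.p.eval w.length) V θ.i true w}) x = some (F x)) ∧
    ∀ (x : ℕ) (z : ℕ → ℕ), ∃ t < θ.q.eval (str x).length, ∀ y : ℕ,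
      F (hist x z t) = str y → ¬ Counter (CC θ.i A) id x y (z t)}

end Pool.Agent.H943R4.CX
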