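import Pool.Agent.H943R4.CX.Obj

/-!
# Processes: monotonicity and the exponential moment of the number of hits
-/

set_option autoImplicit false

namespace Pool.Agent.H943R4.CX

open Finset H568R2 Pool.Agent.H676 Pool.Agent.H620R2.Gauge Pool.Agent.H591R3.PHG Pool.Agent.NPC
open Pool.Agent.H943R4.BA

section A
variable {I : Type} [DecidableEq I]

theorem Proc.mono {D D' : ℕ} (hD : D ≤ D') {h : (I → Bool) → ℕ} (hp : Proc D h) :
    Proc D' h := by
  induction hp generalizing D' with
  | zero D => exact Proc.zero D'
  | le D h h' _ hle ih => exact Proc.le D' h h' (ih hD) hle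
  | free D h i _ ih => exact Proc.free D' h i (fun b => ih b hD)
  | luck D h h' i _ _ hle ih1 ih2 =>
    obtain ⟨E, rfl⟩ : ∃ E, D' = E + 1 := ⟨D' - 1, by omega⟩
    exact Proc.luck E h h' i (ih1 (by omega)) (ih2 (by omega)) hle

/-- redrawing one coordinate -/
theorem ProcEx.step [Fintype I] (t : ℝ) (F : (I → Bool) → ℝ) (i : I) :
    Ex (ber t) F = (1 - t) * Ex (ber t) (fun z => F (Function.update z i false)) +
      t * Ex (ber t) (fun z => F (Function.update z i true)) := by
  have hs : ∑ b : Bool, ber t b = 1 := by
    rw [Fintype.sum_bool]; simp [ber]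
  rw [Ex_resample hs F i, ← Ex_smul, ← Ex_smul, ← Ex_add]
  refine congrArg _ (funext fun z => ?_)
  rw [Fintype.sum_bool]
  simp only [ber, if_true, Bool.false_eq_true, if_false]
  ring

theorem ProcEx.ber_nn {t : ℝ} (ht : 0 ≤ t) (ht1 : t ≤ 1) (b : Bool) : 0 ≤ ber t b := by
  unfold ber
  split_ifs
  · exact ht
  · linarith

/-- the exponential moment of the number of hits -/
theorem Proc.ex [Fintype I] {t l : ℝ} (ht : 0 ≤ t) (ht1 : t ≤ 1) (hl : 0 ≤ l) {D : ℕ}
    {h : (I → Bool) → ℕ} (hp : Proc D h) :
    Ex (ber t) (fun z : I → Bool => (1 + l) ^ (h z)) ≤ (1 + l * t) ^ D := by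
  have hs : ∑ b : Bool, ber t b = 1 := by
    rw [Fintype.sum_bool]; simp [ber]
  have h1l : (1 : ℝ) ≤ 1 + l := by linarith
  have hlt : 0 ≤ l * t := mul_nonneg hl ht
  induction hp with
  | zero D =>
    simp only [pow_zero]
    rw [Ex_const hs]
    exact one_le_pow₀ (by linarith)
  | le D h h' _ hle ih =>
    exact le_trans (Ex_mono (ProcEx.ber_nn ht ht1) fun z => pow_le_pow_right₀ h1l (hle z)) ih
  | free D h i _ ih =>
    rw [ProcEx.step t _ i]
    have a1 := mul_le_mul_of_nonneg_left (ih false) (show 0 ≤ 1 - t by linarith)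
    have a2 := mul_le_mul_of_nonneg_left (ih true) ht
    linarith
  | luck D h h' i _ _ hle ih1 ih2 =>
    rw [ProcEx.step t _ i]
    have a1 := mul_le_mul_of_nonneg_left ih1 (show 0 ≤ 1 - t by linarith)
    have b : Ex (ber t) (fun z : I → Bool => (1 + l) ^ (h (Function.update z i true))) ≤
        (1 + l) * (1 + l * t) ^ D := by
      refine le_trans (Ex_mono (ProcEx.ber_nn ht ht1)
        (G := fun z => (1 + l) * (1 + l) ^ (h' z)) fun z => ?_) ?_
      · rw [← pow_succ']
        exact pow_le_pow_right₀ h1l (hle z)
      · rw [Ex_smul]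
        exact mul_le_mul_of_nonneg_left ih2 (by linarith)
    have a2 := mul_le_mul_of_nonneg_left b ht
    rw [pow_succ]
    have e : (1 + l * t) ^ D * (1 + l * t) =
      (1 - t) * (1 + l * t) ^ D + t * ((1 + l) * (1 + l * t) ^ D) := by ring
    rw [e]
    linarith

end A

open Classical in
/-- the probability that all the rows are won, from the conclusion of `proc_game` (task B) -/
theorem game_bound_of {X : Type} [Fintype X] [DecidableEq X] {Y q D g : ℕ} {t l : ℝ} (ht : 0 ≤ t)
    (ht1 : t ≤ 1) (hl : 0 ≤ l) (s : X × Fin Y → Option Bool)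
    (mv : X → List ℕ → (X × Fin Y → Bool) → ℕ)
    (hproc : Proc (Fintype.card X * (q * (D + 1))) (fun z : X × Fin Y → Bool =>
      (univ.filter (fun j => Win (val s z) j (fun h => mv j h z) q ∧
        ¬ Bad s (val s z) j q)).card)) :
    Ex (ber t) (fun z : X × Fin Y → Bool =>
      if ∀ j, Win (val s z) j (fun h => mv j h z) q then (1 : ℝ) else 0) ≤
      (1 + l * t) ^ (Fintype.card X * (q * (D + 1))) / (1 + l) ^ g +
        Ex (ber t) (fun z : X × Fin Y → Bool =>
          if Fintype.card X < g + (univ.filter (fun j => Bad s (val s z) j q)).card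
          then (1 : ℝ) else 0) := by
  have h1l : (1 : ℝ) ≤ 1 + l := by linarith
  have hpos : (0 : ℝ) < (1 + l) ^ g := pow_pos (by linarith) g
  have hP := Proc.ex ht ht1 hl hproc
  refine le_trans (Ex_mono (ProcEx.ber_nn ht ht1)
    (G := fun z : X × Fin Y → Bool => (1 / (1 + l) ^ g) *
        (1 + l) ^ ((univ.filter (fun j => Win (val s z) j (fun h => mv j h z) q ∧
          ¬ Bad s (val s z) j q)).card) +
      (if Fintype.card X < g + (univ.filter (fun j => Bad s (val s z) j q)).card
          then (1 : ℝ) else 0)) fun z => ?_) ?_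
  · by_cases hw : ∀ j, Win (val s z) j (fun h => mv j h z) q
    · rw [if_pos hw]
      have hcard : (univ.filter (fun j => Win (val s z) j (fun h => mv j h z) q ∧
          ¬ Bad s (val s z) j q)).card + (univ.filter (fun j => Bad s (val s z) j q)).card =
          Fintype.card X := by
        have e : (univ.filter (fun j => Win (val s z) j (fun h => mv j h z) q ∧
          ¬ Bad s (val s z) j q)) = univ.filter (fun j => ¬ Bad s (val s z) j q) :=
          Finset.filter_congr fun j _ => by simp only [hw j, true_and]
        rw [e, add_comm]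
        have := Finset.card_filter_add_card_filter_not (s := (univ : Finset X))
          (fun j => Bad s (val s z) j q)
        rw [this, Finset.card_univ]
      by_cases hg : g ≤ (univ.filter (fun j => Win (val s z) j (fun h => mv j h z) q ∧
          ¬ Bad s (val s z) j q)).card
      · have h2 : (1 : ℝ) ≤ (1 / (1 + l) ^ g) *
          (1 + l) ^ ((univ.filter (fun j => Win (val s z) j (fun h => mv j h z) q ∧
          ¬ Bad s (val s z) j q)).card) := by
          rw [one_div, ← div_eq_inv_mul, le_div_iff₀ hpos, one_mul]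
          exact pow_le_pow_right₀ h1l hg
        have h3 : (0 : ℝ) ≤ (if Fintype.card X < g +
            (univ.filter (fun j => Bad s (val s z) j q)).card then (1 : ℝ) else 0) := by
          split_ifs <;> norm_num
        linarith
      · have h2 : (0 : ℝ) ≤ (1 / (1 + l) ^ g) *
          (1 + l) ^ ((univ.filter (fun j => Win (val s z) j (fun h => mv j h z) q ∧
          ¬ Bad s (val s z) j q)).card) :=
          mul_nonneg (by positivity) (pow_nonneg (by linarith) _)
        rw [if_pos (by omega)]
        linarith
    · rw [if_neg hw]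
      have h2 : (0 : ℝ) ≤ (1 / (1 + l) ^ g) *
          (1 + l) ^ ((univ.filter (fun j => Win (val s z) j (fun h => mv j h z) q ∧
          ¬ Bad s (val s z) j q)).card) :=
          mul_nonneg (by positivity) (pow_nonneg (by linarith) _)
      have h3 : (0 : ℝ) ≤ (if Fintype.card X < g +
            (univ.filter (fun j => Bad s (val s z) j q)).card then (1 : ℝ) else 0) := by
          split_ifs <;> norm_num
      linarith
  · rw [Ex_add, Ex_smul]
    have h4 : (1 / (1 + l) ^ g) * Ex (ber t) (fun z : X × Fin Y → Bool =>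
        (1 + l) ^ ((univ.filter (fun j => Win (val s z) j (fun h => mv j h z) q ∧
          ¬ Bad s (val s z) j q)).card)) ≤
        (1 + l * t) ^ (Fintype.card X * (q * (D + 1))) / (1 + l) ^ g := by
      rw [one_div, ← div_eq_inv_mul]
      exact div_le_div_of_nonneg_right hP hpos.le
    linarith

end Pool.Agent.H943R4.CX
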