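import Pool.Agent.H943R4.CX.Obj

/-! Task C: probabilities of bad rows. -/

set_option autoImplicit false

namespace Pool.Agent.H943R4.CX

open Finset H568R2 Pool.Agent.H676 Pool.Agent.H620R2.Gauge Pool.Agent.H591R3.PHG Pool.Agent.NPC
open Pool.Agent.H943R4.BA

namespace C

/-- expectation of a product over independent coordinates -/
theorem sum_prod_fun {A : Type} [Fintype A] {c : ℕ} (w : A → ℝ) (h : Fin c → A → ℝ) :
    ∑ σ : Fin c → A, (∏ i, w (σ i)) * ∏ i, h i (σ i) = ∏ i, ∑ a, w a * h i a := by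
  classical
  rw [Finset.prod_univ_sum, Fintype.piFinset_univ]
  refine Finset.sum_congr rfl fun σ _ => ?_
  rw [Finset.prod_mul_distrib]

/-- expectation of a product over blocks -/
theorem block {X A : Type} [Fintype X] [DecidableEq X] [Fintype A] {c : ℕ} (w : A → ℝ)
    (h : (Fin c → A) → ℝ) :
    Ex w (fun s : X × Fin c → A => ∏ j, h (fun i => s (j, i))) =
      (∑ σ : Fin c → A, (∏ i, w (σ i)) * h σ) ^ Fintype.card X := by
  classical
  rw [Ex_curry]
  have h1 : ∀ σ : X → Fin c → A, (∏ g, ∏ i, w (σ g i)) * ∏ j, h (fun i => σ j i) =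
      ∏ j, ((∏ i, w (σ j i)) * h (σ j)) := by
    intro σ
    rw [Finset.prod_mul_distrib]
  have h3 : ∑ S : X → (Fin c → A), ∏ j, ((∏ i, w (S j i)) * h (S j)) =
      ∏ _j : X, ∑ σ : Fin c → A, (∏ i, w (σ i)) * h σ := by
    rw [Finset.prod_univ_sum, Fintype.piFinset_univ]
  rw [Finset.sum_congr rfl fun σ _ => h1 σ, h3, Finset.prod_const, Finset.card_univ]

theorem sum_one {A : Type} [Fintype A] {c : ℕ} {w : A → ℝ} (hs : ∑ a, w a = 1) :
    ∑ σ : Fin c → A, ∏ i, w (σ i) = 1 := by
  have := Ex_const (I := Fin c) hs 1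
  unfold Ex at this
  simpa using this

/-- one coordinate -/
theorem marg {A : Type} [Fintype A] {c : ℕ} {w : A → ℝ} (hs : ∑ a, w a = 1) (f : A → ℝ)
    (i : Fin c) : ∑ σ : Fin c → A, (∏ k, w (σ k)) * f (σ i) = ∑ a, w a * f a := by
  have h1 : ∀ σ : Fin c → A, f (σ i) = ∏ k, (if k = i then f (σ k) else 1) := by
    intro σ
    rw [Finset.prod_ite_eq' univ i (fun k => f (σ k)), if_pos (mem_univ i)]
  have h2 := sum_prod_fun w (fun k a => if k = i then f a else 1)
  rw [Finset.sum_congr rfl fun σ _ => by rw [h1 σ]]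
  rw [h2]
  have h3 : ∀ k, (∑ a, w a * (if k = i then f a else 1)) =
      if k = i then ∑ a, w a * f a else 1 := by
    intro k
    split_ifs
    · rfl
    · simpa using hs
  rw [Finset.prod_congr rfl fun k _ => h3 k, Finset.prod_ite_eq', if_pos (mem_univ i)]

end C

open Classical in
theorem few_rows {X A : Type} [Fintype X] [DecidableEq X] [Fintype A] {c : ℕ} {w : A → ℝ}
    (hw : ∀ a, 0 ≤ w a) (hs : ∑ a, w a = 1) (G : (Fin c → A) → Prop)
    (hG : ∑ σ : Fin c → A, (∏ i, w (σ i)) * (if G σ then (1 : ℝ) else 0) ≤ 1 / 16) :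
    Ex w (fun ω : X × Fin c → A =>
      if Fintype.card X ≤ 2 * (univ.filter (fun j => G (fun i => ω (j, i)))).card
      then (1 : ℝ) else 0) ≤ (1 / 2) ^ Fintype.card X := by
  have hprod : ∀ ω : X × Fin c → A,
      ∏ j, (if G (fun i => ω (j, i)) then (4 : ℝ) else 1 / 4) =
        16 ^ (univ.filter (fun j => G (fun i => ω (j, i)))).card / 4 ^ Fintype.card X := by
    intro ω
    have h1 : ∀ j : X, (if G (fun i => ω (j, i)) then (4 : ℝ) else 1 / 4) =
        (if G (fun i => ω (j, i)) then (16 : ℝ) else 1) * (1 / 4) := by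
      intro j
      split_ifs <;> norm_num
    rw [Finset.prod_congr rfl fun j _ => h1 j, Finset.prod_mul_distrib, Finset.prod_ite,
      Finset.prod_const, Finset.prod_const, one_pow, mul_one, Finset.prod_const, Finset.card_univ,
      one_div, inv_pow, div_eq_mul_inv]
  have h1 : Ex w (fun ω : X × Fin c → A =>
      if Fintype.card X ≤ 2 * (univ.filter (fun j => G (fun i => ω (j, i)))).card
      then (1 : ℝ) else 0) ≤
      Ex w (fun ω : X × Fin c → A =>
        ∏ j, (if G (fun i => ω (j, i)) then (4 : ℝ) else 1 / 4)) := by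
    refine Ex_mono hw fun ω => ?_
    rw [hprod]
    split_ifs with h
    · rw [one_le_div (by positivity)]
      calc (4 : ℝ) ^ Fintype.card X
          ≤ 4 ^ (2 * (univ.filter (fun j => G (fun i => ω (j, i)))).card) :=
            pow_le_pow_right₀ (by norm_num) h
        _ = 16 ^ (univ.filter (fun j => G (fun i => ω (j, i)))).card := by
            rw [pow_mul]
            norm_num
    · positivity
  refine h1.trans ?_
  rw [C.block w (fun σ => if G σ then (4 : ℝ) else 1 / 4)]
  have h5 : ∀ σ : Fin c → A, (∏ i, w (σ i)) * (if G σ then (4 : ℝ) else 1 / 4) =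
      1 / 4 * (∏ i, w (σ i)) + 15 / 4 * ((∏ i, w (σ i)) * (if G σ then (1 : ℝ) else 0)) := by
    intro σ
    split_ifs <;> ring
  refine pow_le_pow_left₀ ?_ ?_ _
  · refine Finset.sum_nonneg fun σ _ => mul_nonneg (Finset.prod_nonneg fun i _ => hw _) ?_
    split_ifs <;> norm_num
  · rw [Finset.sum_congr rfl fun σ _ => h5 σ, Finset.sum_add_distrib, ← Finset.mul_sum,
      ← Finset.mul_sum, C.sum_one hs]
    linarith

/-- two independent families -/
theorem Ex_prod {I A B : Type} [Fintype I] [DecidableEq I] [Fintype A] [Fintype B]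
    (w : A → ℝ) (w' : B → ℝ) (Φ : (I → A) → (I → B) → ℝ) :
    Ex w (fun s => Ex w' (fun z => Φ s z)) =
      Ex (fun a : A × B => w a.1 * w' a.2) (fun ω => Φ (fun i => (ω i).1) (fun i => (ω i).2)) := by
  rw [H568R2.Ex_prod w w' (fun ω : I → A × B => Φ (fun i => (ω i).1) (fun i => (ω i).2))]

open Classical in
/-- the probability that a row is bad -/
theorem row_bad {Y q : ℕ} {t : ℝ} (ht : 0 ≤ t) (ht1 : t ≤ 1) {law : Option Bool → ℝ}
    (hn : ∀ v, 0 ≤ law v) (hs : ∑ v, law v = 1) :
    ∑ σ : Fin Y → Option Bool × Bool, (∏ i, law (σ i).1 * ber t (σ i).2) *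
      (if BadRow q σ then (1 : ℝ) else 0) ≤
      Y * law (some true) + 2 ^ q * (1 - (t * law none + law (some true)) / 2) ^ Y := by
  have hb : ∀ b, 0 ≤ ber t b := by
    intro b
    unfold ber
    split_ifs <;> linarith
  have hw : ∀ a : Option Bool × Bool, 0 ≤ law a.1 * ber t a.2 := fun a =>
    mul_nonneg (hn _) (hb _)
  have hs' : law none + (law (some true) + law (some false)) = 1 := by
    rw [← hs, Fintype.sum_option, Fintype.sum_bool]
  have hw1 : ∑ a : Option Bool × Bool, law a.1 * ber t a.2 = 1 := by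
    rw [Fintype.sum_prod_type, Fintype.sum_option, Fintype.sum_bool]
    simp only [Fintype.sum_bool, ber, if_true, Bool.false_eq_true, if_false]
    linear_combination hs'
  have key : ∀ σ : Fin Y → Option Bool × Bool, (if BadRow q σ then (1 : ℝ) else 0) ≤
      ∑ i, (if (σ i).1 = some true then (1 : ℝ) else 0) +
        2 ^ q * ∏ i, (if (σ i).1.getD (σ i).2 = true then (1 / 2 : ℝ) else 1) := by
    intro σ
    have hn1 : (0 : ℝ) ≤ ∑ i, (if (σ i).1 = some true then (1 : ℝ) else 0) :=
      Finset.sum_nonneg fun i _ => by split_ifs <;> norm_num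
    have hn2 : (0 : ℝ) ≤ 2 ^ q * ∏ i, (if (σ i).1.getD (σ i).2 = true then (1 / 2 : ℝ) else 1) :=
      mul_nonneg (by positivity) (Finset.prod_nonneg fun i _ => by split_ifs <;> norm_num)
    split_ifs with hB
    · rcases hB with ⟨i, hi⟩ | hc
      · have h1 : (1 : ℝ) ≤ ∑ i, (if (σ i).1 = some true then (1 : ℝ) else 0) := by
          have h2 := Finset.single_le_sum (f := fun i => if (σ i).1 = some true then (1 : ℝ) else 0)
            (fun i _ => by split_ifs <;> norm_num) (Finset.mem_univ i)
          simpa [hi] using h2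
        linarith
      · have h1 : (1 : ℝ) ≤
            2 ^ q * ∏ i, (if (σ i).1.getD (σ i).2 = true then (1 / 2 : ℝ) else 1) := by
          rw [Finset.prod_ite, Finset.prod_const, Finset.prod_const, one_pow, mul_one]
          calc (1 : ℝ) = 2 ^ q * (1 / 2) ^ q := by
                rw [← mul_pow]
                norm_num
            _ ≤ _ := mul_le_mul_of_nonneg_left
                (pow_le_pow_of_le_one (by norm_num) (by norm_num) hc) (by positivity)
        linarith
    · linarith
  have step : ∑ σ : Fin Y → Option Bool × Bool, (∏ i, law (σ i).1 * ber t (σ i).2) *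
      (if BadRow q σ then (1 : ℝ) else 0) ≤
      ∑ σ : Fin Y → Option Bool × Bool, (∏ i, law (σ i).1 * ber t (σ i).2) *
        (∑ i, (if (σ i).1 = some true then (1 : ℝ) else 0) +
        2 ^ q * ∏ i, (if (σ i).1.getD (σ i).2 = true then (1 / 2 : ℝ) else 1)) :=
    Finset.sum_le_sum fun σ _ => mul_le_mul_of_nonneg_left (key σ)
      (Finset.prod_nonneg fun i _ => hw (σ i))
  refine step.trans (le_of_eq ?_)
  have e1 : ∀ σ : Fin Y → Option Bool × Bool, (∏ i, law (σ i).1 * ber t (σ i).2) *
        (∑ i, (if (σ i).1 = some true then (1 : ℝ) else 0) +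
        2 ^ q * ∏ i, (if (σ i).1.getD (σ i).2 = true then (1 / 2 : ℝ) else 1)) =
      ∑ i, (∏ k, law (σ k).1 * ber t (σ k).2) * (if (σ i).1 = some true then (1 : ℝ) else 0) +
      2 ^ q * ((∏ i, law (σ i).1 * ber t (σ i).2) *
        ∏ i, (if (σ i).1.getD (σ i).2 = true then (1 / 2 : ℝ) else 1)) := by
    intro σ
    rw [mul_add, Finset.mul_sum]
    ring
  rw [Finset.sum_congr rfl fun σ _ => e1 σ, Finset.sum_add_distrib, Finset.sum_comm]
  congr 1
  · have h1 : ∀ i : Fin Y, ∑ σ : Fin Y → Option Bool × Bool,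
        (∏ k, law (σ k).1 * ber t (σ k).2) * (if (σ i).1 = some true then (1 : ℝ) else 0) =
        law (some true) := by
      intro i
      rw [C.marg (w := fun a : Option Bool × Bool => law a.1 * ber t a.2) hw1
        (fun a => if a.1 = some true then (1 : ℝ) else 0) i]
      rw [Fintype.sum_prod_type, Fintype.sum_option, Fintype.sum_bool]
      simp [ber]
      ring
    rw [Finset.sum_congr rfl fun i _ => h1 i, Finset.sum_const, Finset.card_univ, Fintype.card_fin,
      nsmul_eq_mul]
  · rw [← Finset.mul_sum]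
    congr 1
    rw [C.sum_prod_fun (fun a : Option Bool × Bool => law a.1 * ber t a.2)
      (fun _ a => if a.1.getD a.2 = true then (1 / 2 : ℝ) else 1), Finset.prod_const,
      Finset.card_univ, Fintype.card_fin]
    congr 1
    rw [Fintype.sum_prod_type, Fintype.sum_option, Fintype.sum_bool]
    simp only [Fintype.sum_bool, ber, if_true, Bool.false_eq_true, if_false, Option.getD_none,
      Option.getD_some]
    linear_combination hs'

end Pool.Agent.H943R4.CX
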