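import Pool.Agent.H943R4.CX.Obj
import Pool.Agent.H591R3.PHG.Sig
import Pool.Agent.H620R2.GaugeR.Seq

/-!
# Levels of the hierarchy and polynomial-time preprocessing
-/

set_option autoImplicit false

namespace Pool.Agent.H943R4.CX

open Finset H568R2 Pool.Agent.H676 Pool.Agent.H620R2.Gauge Pool.Agent.H591R3.PHG Pool.Agent.NPC
open Pool.Agent.H943R4.BA

namespace H1

/-- Truncation of the quantified strings to the length `p |f c|`, where `c` is the innermost
string, which is replaced by `f c`; the bound is carried along in unary. -/
def trf (f : List Bool → List Bool) (p : Polynomial ℕ) : ℕ → List Bool → List Unit × List Bool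
  | 0, y => (List.replicate (p.eval (f y).length) (), f y)
  | k + 1, z => ((trf f p k (unpair z).2).1,
      pairBits (((unpair z).1.zip (trf f p k (unpair z).2).1).map (fun u => u.1))
        (trf f p k (unpair z).2).2)

theorem poly_trf {f : List Bool → List Bool} (hf : Poly f) (p : Polynomial ℕ) (k : ℕ) :
    Poly (trf f p k) := by
  have h1 : Poly (fun z : List Bool => (unpair z).1) := Poly.fst poly_unpair
  have h2 : Poly (fun z : List Bool => (unpair z).2) := Poly.snd poly_unpair
  induction k with
  | zero =>
    have h3 : UPoly (fun z : List Bool => p.eval (f z).length) :=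
      UPoly.eval (UPoly.length hf) p
    exact (Poly.pair h3 hf).congr (fun z => rfl)
  | succ k ih =>
    have h3 : Poly (fun z : List Bool => trf f p k (unpair z).2) := ih.comp h2
    have h4 : Poly (fun z : List Bool => (unpair z).1.zip (trf f p k (unpair z).2).1) :=
      Poly.zip h1 (Poly.fst h3)
    have h5 : Poly (fun z : List Bool =>
        ((unpair z).1.zip (trf f p k (unpair z).2).1).map (fun u => u.1)) :=
      NPC.Poly.map (F := fun _ u => u.1) h4 (Poly.fst (Poly.snd Poly.id))
    exact (Poly.pair (Poly.fst h3) (H622R2.poly_pairBits h5 (Poly.snd h3))).congr (fun z => rfl)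

theorem quant_trf (f : List Bool → List Bool) (p : Polynomial ℕ) (V : List Bool → List Bool)
    {m m' : ℕ} (hm : m ≤ m') :
    ∀ (k j : ℕ) (b : Bool) (y t : List Bool), trf f p j y = (List.replicate m (), t) →
      (Quant m V k b t ↔ Quant m' (fun z => V (trf f p (j + k) z).2) k b y) := by
  intro k
  induction k with
  | zero =>
    intro j b y t h
    cases b <;> simp [Quant, h]
  | succ k ih =>
    intro j b y t h
    have key : ∀ w : List Bool, trf f p (j + 1) (pairBits w y) =
        (List.replicate m (), pairBits (w.take m) t) := by
      intro w
      simp only [trf, unpair_pairBits, h, U2.map_fst_zip_replicate]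
    have e : j + 1 + k = j + (k + 1) := by omega
    cases b with
    | true =>
      simp only [Quant]
      constructor
      · rintro ⟨w, hw, h1⟩
        refine ⟨w, hw.trans hm, ?_⟩
        have h2 := (ih (j + 1) false (pairBits w y) _ (key w))
        rw [List.take_of_length_le hw, e] at h2
        exact h2.1 h1
      · rintro ⟨w, hw, h1⟩
        refine ⟨w.take m, by simp, ?_⟩
        have h2 := (ih (j + 1) false (pairBits w y) _ (key w))
        rw [e] at h2
        exact h2.2 h1
    | false =>
      simp only [Quant]
      constructor
      · intro h1 w hw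
        have h2 := (ih (j + 1) true (pairBits w y) _ (key w))
        rw [e] at h2
        exact h2.1 (h1 (w.take m) (by simp))
      · intro h1 w hw
        have h2 := (ih (j + 1) true (pairBits w y) _ (key w))
        rw [List.take_of_length_le hw, e] at h2
        exact h2.2 (h1 w (hw.trans hm))

/-- verifiers that agree on the strings with the innermost string `c` -/
theorem quant_congr {m : ℕ} {V W : List Bool → List Bool} {c : List Bool} {k : ℕ}
    (h : ∀ z, strip k z = c → (V z = [true] ↔ W z = [true])) : ∀ (j i : ℕ) (b : Bool)
    (u : List Bool), i + j = k → strip i u = c → (Quant m V j b u ↔ Quant m W j b u) := by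
  intro j
  induction j with
  | zero =>
    intro i b u hi hu
    have hi' : i = k := by omega
    subst hi'
    cases b <;> exact h u hu
  | succ j ih =>
    intro i b u hi hu
    have key : ∀ (b : Bool) (w : List Bool),
        (Quant m V j b (pairBits w u) ↔ Quant m W j b (pairBits w u)) := by
      intro b w
      refine ih (i + 1) b (pairBits w u) (by omega) ?_
      show strip i (unpair (pairBits w u)).2 = c
      rw [unpair_pairBits]
      exact hu
    cases b with
    | true =>
      exact exists_congr fun w => and_congr_right fun _ => key false w
    | false =>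
      exact forall_congr' fun w => imp_congr_right fun _ => key true w

/-- the code of the case -/
def cd (d e : List Bool → List Bool) (c : List Bool) : List Bool :=
  if d c = [true] then [true] else if e c = [true] then [false] else []

/-- the last step -/
def post (u : List Bool) : List Bool :=
  if (unpair u).1 = [true] then [true] else if (unpair u).1 = [false] then (unpair u).2 else []

theorem poly_cd {d e : List Bool → List Bool} (hd : Poly d) (he : Poly e) : Poly (cd d e) :=
  Poly.ite (Poly.decide_eq hd (NPC.Poly.const _)) (NPC.Poly.const _)
    (Poly.ite (Poly.decide_eq he (NPC.Poly.const _)) (NPC.Poly.const _) (NPC.Poly.const _))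

theorem poly_post : Poly post :=
  Poly.ite (Poly.decide_eq (Poly.fst poly_unpair) (NPC.Poly.const _)) (NPC.Poly.const _)
    (Poly.ite (Poly.decide_eq (Poly.fst poly_unpair) (NPC.Poly.const _)) (Poly.snd poly_unpair)
      (NPC.Poly.const _))

end H1

open H1

/-- levels of the hierarchy and polynomial-time preprocessing -/
theorem sigma_pre {A : Oracle} {k : ℕ} {L : Set (List Bool)} (h : IsSigma A k L)
    {f d e : List Bool → List Bool} (hf : PolyTime f) (hd : PolyTime d) (he : PolyTime e) :
    IsSigma A k {c | d c = [true] ∨ (e c = [true] ∧ f c ∈ L)} := by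
  obtain ⟨V, p, hV, hL⟩ := h
  have hf' : Poly f := H622R2.poly_of_polyTime hf
  have hd' : Poly d := H622R2.poly_of_polyTime hd
  have he' : Poly e := H622R2.poly_of_polyTime he
  obtain ⟨q, hq⟩ := hf'.sz_le
  refine ⟨fun z => post (pairBits (cd d e (strip k z)) (V (trf f p k z).2)),
    p.comp (q.comp (Polynomial.C 4 * Polynomial.X + Polynomial.C 1)),
    IsFP.comp (IsFP.of_poly poly_post) (IsFP.pair
      (IsFP.of_poly ((poly_cd hd' he').comp (poly_strip k)))
      (hV.precomp (Poly.snd (poly_trf hf' p k)))), fun c => ?_⟩
  set m' := (p.comp (q.comp (Polynomial.C 4 * Polynomial.X + Polynomial.C 1))).eval c.length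
  have hm : p.eval (f c).length ≤ m' := by
    show _ ≤ (p.comp (q.comp (Polynomial.C 4 * Polynomial.X + Polynomial.C 1))).eval c.length
    rw [Polynomial.eval_comp]
    apply eval_mono
    have h3 := length_lt_sz (f c)
    have h4 := hq c
    rw [Polynomial.eval_comp]
    refine h3.le.trans (h4.trans (eval_mono _ ?_))
    have h5 := sz_listBool_le c
    simpa using h5
  show (d c = [true] ∨ (e c = [true] ∧ f c ∈ L)) ↔ _
  by_cases h1 : d c = [true]
  · have h2 : Quant m' (fun z => post (pairBits (cd d e (strip k z)) (V (trf f p k z).2)))
        k true c ↔ Quant m' (fun z => (fun _ => [true]) (strip k z)) k true c := by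
      refine quant_congr (c := c) (k := k) (fun z hz => ?_) k 0 true c (by omega) rfl
      simp only [hz, cd, if_pos h1, post, unpair_pairBits, if_true]
    rw [h2, quant_strip m' (fun _ => [true]) k k 0 true c (by omega)]
    exact ⟨fun _ => rfl, fun _ => Or.inl h1⟩
  · by_cases h2 : e c = [true]
    · have h3 : Quant m' (fun z => post (pairBits (cd d e (strip k z)) (V (trf f p k z).2)))
          k true c ↔ Quant m' (fun z => V (trf f p (0 + k) z).2) k true c := by
        refine quant_congr (c := c) (k := k) (fun z hz => ?_) k 0 true c (by omega) rfl
        rw [zero_add]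
        simp only [hz, cd, if_neg h1, if_pos h2, post, unpair_pairBits]
        rw [if_neg (by simp), if_true]
      rw [h3, ← quant_trf f p V hm k 0 true c (f c) rfl, ← hL (f c)]
      constructor
      · rintro (h4 | h4)
        · exact absurd h4 h1
        · exact h4.2
      · intro h4
        exact Or.inr ⟨h2, h4⟩
    · have h3 : Quant m' (fun z => post (pairBits (cd d e (strip k z)) (V (trf f p k z).2)))
          k true c ↔ Quant m' (fun z => (fun _ => []) (strip k z)) k true c := by
        refine quant_congr (c := c) (k := k) (fun z hz => ?_) k 0 true c (by omega) rfl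
        simp only [hz, cd, if_neg h1, if_neg h2, post, unpair_pairBits]
        rw [if_neg (by simp), if_neg (by simp)]
      rw [h3, quant_strip m' (fun _ => []) k k 0 true c (by omega)]
      constructor
      · rintro (h4 | h4)
        · exact absurd h4 h1
        · exact absurd h4.1 h2
      · intro h4
        exact absurd h4 (by simp)

end Pool.Agent.H943R4.CX
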