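import Pool.Agent.H943R4.CX.Obj
import Pool.Agent.H591R3.PHG.Nums
import Pool.Agent.H591R3.PHG.InvStep
import Pool.Agent.H591R3.PHG.NumsStart

/-! Numbers -/

set_option autoImplicit false

namespace Pool.Agent.H943R4.CX

open Finset hiding val
open H568R2 Pool.Agent.H676 Pool.Agent.H620R2.Gauge Pool.Agent.H591R3.PHG Pool.Agent.NPC
open Pool.Agent.H943R4.BA

namespace E

theorem sizes {n : ℕ} (hn : 5 ≤ n) : ∀ (i : ℕ) (law : Option Bool → ℝ), Inv n law →
    ∃ as : List ℕ, as.length = i ∧ (∀ a ∈ as, a ≤ 64 * n) ∧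
      Inv n (lawit (1 / 2 ^ (4 * n)) (1 / 2 ^ (2 * n)) (8 * n * 2 ^ (4 * n)) (pw as) law) := by
  intro i
  induction i with
  | zero =>
    intro law h
    exact ⟨[], rfl, by simp, h⟩
  | succ i ih =>
    intro law h
    have hn5 : (5 : ℝ) ≤ n := by exact_mod_cast hn
    obtain ⟨a, ha, h1, h2⟩ := exists_pow hn (B := 16 * n) h.lo h.hi (by linarith) le_rfl
    have hc2 : (((2 ^ a : ℕ)) : ℝ) = 2 ^ a := by push_cast; rfl
    have h' := inv_step (c := 2 ^ a) hn h (by rw [hc2]; exact h1)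
      (by rw [hc2]; linarith)
    obtain ⟨as, hlen, has, hX⟩ := ih _ h'
    refine ⟨a :: as, by simp [hlen], ?_, hX⟩
    intro a' ha'
    rcases List.mem_cons.1 ha' with rfl | h
    · exact ha
    · exact has a' h

theorem big {n : ℕ} (hn : 20 ≤ n) : 2048 * n ≤ 2 ^ n := by
  induction n, hn using Nat.le_induction with
  | base => norm_num
  | succ n hn ih =>
    rw [pow_succ]
    omega

end E

theorem exists_sizes0 {n : ℕ} (hn : 5 ≤ n) (i : ℕ) :
    ∃ as : List ℕ, as.length = i ∧ (∀ a ∈ as, a ≤ 64 * n) ∧ Inv n (lawr n as) :=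
  E.sizes hn i _ (inv_start hn)

theorem exists_L {n : ℕ} (hn : 5 ≤ n) {law : Option Bool → ℝ} (h : Inv n law) :
    ∃ L : ℕ, L ≤ 65 * n ∧ 16 * n * 2 ^ n ≤ (2 : ℝ) ^ L * pT n law ∧
      (2 : ℝ) ^ L * pT n law < 32 * n * 2 ^ n := by
  have hn5 : (5 : ℝ) ≤ n := by exact_mod_cast hn
  obtain ⟨a, ha, h1, h2⟩ := exists_pow hn (B := 16 * n) h.lo h.hi (by linarith) le_rfl
  have h2n : (0 : ℝ) < 2 ^ n := by positivity
  have e : (2 : ℝ) ^ (a + n) * pT n law =
      (2 ^ a * (law none / 2 ^ (4 * n) + law (some true))) * 2 ^ n := by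
    unfold pT
    rw [pow_add]; ring
  refine ⟨a + n, by omega, ?_, ?_⟩
  · rw [e]
    exact mul_le_mul_of_nonneg_right h1 h2n.le
  · rw [e]
    have := mul_lt_mul_of_pos_right h2 h2n
    linarith

/-- a row is bad with probability at most `1/16` -/
theorem row_num {n u q L : ℕ} (hn : 20 ≤ n) (hu : 8 * u ≤ n) (hq : q ≤ 2 ^ (2 * u))
    {law : Option Bool → ℝ} (h : Inv n law) (h1 : 16 * n * 2 ^ n ≤ (2 : ℝ) ^ L * pT n law)
    (h2 : (2 : ℝ) ^ L * pT n law < 32 * n * 2 ^ n) :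
    ((2 ^ L : ℕ) : ℝ) * law (some true) +
      2 ^ q * (1 - (1 / 2 ^ (4 * n) * law none + law (some true)) / 2) ^ (2 ^ L) ≤ 1 / 16 := by
  have hn20 : (20 : ℝ) ≤ n := by exact_mod_cast hn
  have hL : (((2 ^ L : ℕ)) : ℝ) = 2 ^ L := by push_cast; rfl
  have h2n : (0 : ℝ) < 2 ^ n := by positivity
  have hp : 1 / 2 ^ (4 * n) * law none + law (some true) = pT n law := by
    unfold pT; ring
  have hbig : (2048 : ℝ) * n ≤ 2 ^ n := by exact_mod_cast E.big hn
  have hrare : law (some true) ≤ 2 * (1 / 2 ^ (2 * n)) * pT n law := h.rare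
  have hhi : pT n law ≤ 1 / 2 ^ (8 * n) := h.hi
  rw [hp, hL]
  have hA : (2 : ℝ) ^ L * law (some true) ≤ 1 / 32 := by
    calc (2 : ℝ) ^ L * law (some true)
        ≤ 2 ^ L * (2 * (1 / 2 ^ (2 * n)) * pT n law) :=
          mul_le_mul_of_nonneg_left hrare (by positivity)
      _ = 2 * (1 / 2 ^ (2 * n)) * (2 ^ L * pT n law) := by ring
      _ ≤ 2 * (1 / 2 ^ (2 * n)) * (32 * n * 2 ^ n) :=
          mul_le_mul_of_nonneg_left h2.le (by positivity)
      _ = 64 * n / 2 ^ n := by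
          rw [show 2 * n = n + n by ring, pow_add]
          field_simp
          norm_num
      _ ≤ 1 / 32 := by
          rw [div_le_div_iff₀ h2n (by norm_num)]
          linarith
  have hB : (2 : ℝ) ^ q * (1 - pT n law / 2) ^ (2 ^ L) ≤ 1 / 32 := by
    have hx1 : pT n law / 2 ≤ 1 := by
      have : (1 : ℝ) / 2 ^ (8 * n) ≤ 1 := by
        rw [div_le_one (by positivity)]
        exact one_le_pow₀ (by norm_num)
      linarith
    have h3 := one_sub_pow_le_exp hx1 (2 ^ L)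
    have h4 : (2 : ℝ) ^ q ≤ Real.exp (2 ^ n) := by
      have h5 : (2 : ℝ) ^ q ≤ Real.exp q := by
        rw [show Real.exp (q : ℝ) = (Real.exp 1) ^ q by rw [← Real.exp_nat_mul]; simp]
        apply pow_le_pow_left₀ (by norm_num)
        have := Real.add_one_le_exp (1 : ℝ)
        linarith
      refine h5.trans (Real.exp_le_exp.2 ?_)
      have : q ≤ 2 ^ n := hq.trans (Nat.pow_le_pow_right (by norm_num) (by omega))
      exact_mod_cast this
    have h5 : (1 - pT n law / 2) ^ (2 ^ L) ≤ Real.exp (-(8 * n * 2 ^ n)) := by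
      refine h3.trans (Real.exp_le_exp.2 ?_)
      rw [hL]
      linarith
    calc (2 : ℝ) ^ q * (1 - pT n law / 2) ^ (2 ^ L)
        ≤ Real.exp (2 ^ n) * Real.exp (-(8 * n * 2 ^ n)) :=
          mul_le_mul h4 h5 (pow_nonneg (by linarith) _) (Real.exp_pos _).le
      _ = Real.exp (-((8 * n - 1) * 2 ^ n)) := by rw [← Real.exp_add]; ring_nf
      _ ≤ 1 / 32 := by
          rw [Real.exp_neg, ← one_div]
          apply one_div_le_one_div_of_le (by norm_num)
          have h6 := Real.add_one_le_exp ((8 * (n : ℝ) - 1) * 2 ^ n)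
          have h7 : (31 : ℝ) ≤ (8 * n - 1) * 2 ^ n := by nlinarith
          linarith
  linarith

theorem hits_num {n u q D : ℕ} (hn : 20 ≤ n) (hu : 8 * u ≤ n) (hq : q ≤ 2 ^ (2 * u))
    (hD : D ≤ 2 ^ (4 * u)) :
    (1 + (2 : ℝ) ^ n * (1 / 2 ^ (4 * n))) ^ (2 ^ (u + 11) * (q * (D + 1))) /
      (1 + 2 ^ n) ^ (2 ^ (u + 10)) + (1 / 2) ^ (2 ^ (u + 11)) ≤ 3 * (1 / 2) ^ (2 ^ u) := by
  have hcount : 2 ^ (u + 11) * (q * (D + 1)) ≤ 2 ^ (n + 12) := by
    have h1 : D + 1 ≤ 2 ^ (4 * u + 1) := by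
      have : 1 ≤ 2 ^ (4 * u) := Nat.one_le_two_pow
      rw [pow_succ]; omega
    calc 2 ^ (u + 11) * (q * (D + 1)) ≤ 2 ^ (u + 11) * (2 ^ (2 * u) * 2 ^ (4 * u + 1)) :=
          Nat.mul_le_mul_left _ (Nat.mul_le_mul hq h1)
      _ = 2 ^ (7 * u + 12) := by rw [← pow_add, ← pow_add]; ring_nf
      _ ≤ _ := Nat.pow_le_pow_right (by norm_num) (by omega)
  have hnum : (1 + (2 : ℝ) ^ n * (1 / 2 ^ (4 * n))) ^ (2 ^ (u + 11) * (q * (D + 1))) ≤ 2 := by
    have h1 : (2 : ℝ) ^ n * (1 / 2 ^ (4 * n)) = 1 / 2 ^ (3 * n) := by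
      rw [show 4 * n = n + 3 * n by ring, pow_add]
      field_simp
    rw [h1]
    have h0 : (0 : ℝ) ≤ 1 / 2 ^ (3 * n) := by positivity
    calc (1 + 1 / (2 : ℝ) ^ (3 * n)) ^ (2 ^ (u + 11) * (q * (D + 1)))
        ≤ (1 + 1 / (2 : ℝ) ^ (3 * n)) ^ (2 ^ (n + 12)) :=
          pow_le_pow_right₀ (by linarith) hcount
      _ ≤ (Real.exp (1 / 2 ^ (3 * n))) ^ (2 ^ (n + 12)) := by
          apply pow_le_pow_left₀ (by linarith)
          have := Real.add_one_le_exp (1 / (2 : ℝ) ^ (3 * n))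
          linarith
      _ = Real.exp (2 ^ (n + 12) * (1 / 2 ^ (3 * n))) := by
          rw [← Real.exp_nat_mul]; push_cast; ring_nf
      _ ≤ Real.exp (1 / 2) := by
          apply Real.exp_le_exp.2
          rw [mul_one_div, div_le_div_iff₀ (by positivity) (by norm_num), one_mul]
          calc (2 : ℝ) ^ (n + 12) * 2 = 2 ^ (n + 13) := by rw [← pow_succ]
            _ ≤ 2 ^ (3 * n) := pow_le_pow_right₀ (by norm_num) (by omega)
      _ ≤ 2 := by
          have h2 : Real.exp (1 / 2) ^ 2 = Real.exp 1 := by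
            rw [← Real.exp_nat_mul]; norm_num
          have h3 : Real.exp 1 < 4 := by
            have := Real.exp_one_lt_d9
            linarith
          have h4 : 0 < Real.exp (1 / 2) := Real.exp_pos _
          nlinarith
  have h2u : (0 : ℝ) < 2 ^ (2 ^ u) := by positivity
  have hden : (2 : ℝ) ^ (2 ^ u) ≤ (1 + 2 ^ n) ^ (2 ^ (u + 10)) := by
    calc (2 : ℝ) ^ (2 ^ u) ≤ 2 ^ (2 ^ (u + 10)) := by
          apply pow_le_pow_right₀ (by norm_num)
          exact Nat.pow_le_pow_right (by norm_num) (by omega)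
      _ ≤ _ := by
          apply pow_le_pow_left₀ (by norm_num)
          have : (1 : ℝ) ≤ 2 ^ n := one_le_pow₀ (by norm_num)
          linarith
  have hA : (1 + (2 : ℝ) ^ n * (1 / 2 ^ (4 * n))) ^ (2 ^ (u + 11) * (q * (D + 1))) /
      (1 + 2 ^ n) ^ (2 ^ (u + 10)) ≤ 2 * (1 / 2) ^ (2 ^ u) := by
    have e : (2 : ℝ) * (1 / 2) ^ (2 ^ u) = 2 / 2 ^ (2 ^ u) := by
      rw [one_div_pow, mul_one_div]
    rw [e]
    exact div_le_div₀ (by norm_num) hnum h2u hden
  have hB : (1 / 2 : ℝ) ^ (2 ^ (u + 11)) ≤ (1 / 2) ^ (2 ^ u) := by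
    apply pow_le_pow_of_le_one (by norm_num) (by norm_num)
    exact Nat.pow_le_pow_right (by norm_num) (by omega)
  linarith

end Pool.Agent.H943R4.CX
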