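import Pool.Agent.H943R4.CX.Obj
import Pool.Agent.H591R3.PHG.Main

/-! The stages for a general functional -/

set_option autoImplicit false

namespace Pool.Agent.H943R4.CX

open Finset hiding val
open H568R2 Pool.Agent.H676 Pool.Agent.H620R2.Gauge Pool.Agent.H591R3.PHG Pool.Agent.NPC
open Pool.Agent.H943R4.BA

section D
variable {X : Type} [Fintype X] [DecidableEq X]

theorem Ex_WT (t ξ : ℝ) (smin : ℕ) (W0 : (X → Option Bool) → ℝ) :
    ∀ (cs : List ℕ) (law : Option Bool → ℝ),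
      Ex law (WT t ξ smin W0 cs) = Ex (lawit t ξ smin cs law) W0 := by
  intro cs
  induction cs with
  | nil => intro law; rfl
  | cons c cs ih =>
    intro law
    have h := law_stage (G := Idx X cs) (c := c) (smin := smin) (t := t) (t' := t) (ξ := ξ) law
      (WT t ξ smin W0 cs)
    rw [lawit, ← ih, ← h]
    rfl

theorem stages_stage {c smin : ℕ} {t t' ξ : ℝ} (ht : 0 < t)
    (ht1 : t < 1) (ht' : 0 < t') (hs : 1 ≤ smin) (cs : List ℕ) (s : Idx X (c :: cs) → Option Bool)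
    (Φ : (Idx X (c :: cs) → Bool) → (X → Bool) → ℝ) :
    Ex (ber t) (fun z : Idx X (c :: cs) → Bool => Φ z (Tr (c :: cs) (val s z))) =
      ∑ ρ : Idx X cs → St c, wt (G := Idx X cs) t t' ξ smin s ρ *
        Ex (ber t') (fun z : Idx X cs → Bool => Φ (XX (G := Idx X cs) s ρ z)
          (Tr cs (val (fun h => (ρ h).1) z))) := by
  classical
  have h1 := stage (G := Idx X cs) (ξ := ξ) ht ht1 ht' hs s (fun z : Idx X cs × Fin c → Bool =>
    Φ z (Tr (c :: cs) (val (I := Idx X cs × Fin c) s z)))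
  refine Eq.trans ?_ (h1.trans ?_)
  · rfl
  · refine Finset.sum_congr rfl fun ρ _ => ?_
    by_cases hρ : wt (G := Idx X cs) t t' ξ smin s ρ = 0
    · rw [hρ, zero_mul, zero_mul]
    · have h2 : ∀ z : Idx X cs → Bool,
          Tr (c :: cs) (val (I := Idx X cs × Fin c) s (XX s ρ z)) =
            Tr (X := X) cs (val (fun h => (ρ h).1) z) := by
        intro z
        show Tr cs (fun g => decide (∀ i : Fin c,
          val (I := Idx X cs × Fin c) s (XX s ρ z) (g, i) = false)) = _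
        congr 1
        funext g'
        exact val_stage (G := Idx X cs) s ρ hρ z g'
      simp only [h2]

theorem stages_WT_nonneg {t ξ : ℝ} {smin : ℕ} (ht : 0 < t)
    (ht1 : t < 1) (hξ : 0 ≤ ξ) (hξ1 : ξ ≤ 1) (hs : 1 ≤ smin)
    (h : (1 - ξ) * (1 - t) ^ smin / t + ξ * (1 - t) ^ smin ≤ 1)
    {W0 : (X → Option Bool) → ℝ} (hW : ∀ s, 0 ≤ W0 s) :
    ∀ (cs : List ℕ) (s : Idx X cs → Option Bool), 0 ≤ WT t ξ smin W0 cs s := by
  intro cs
  induction cs with
  | nil => intro s; exact hW s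
  | cons c cs ih =>
    intro s
    exact Finset.sum_nonneg fun ρ _ =>
      mul_nonneg (wt_nonneg ht ht1 ht hξ hξ1 hs h s ρ) (ih _)

theorem stages_Ex_le_one {I : Type} [Fintype I] [DecidableEq I] {t : ℝ} (h0 : 0 ≤ t) (h1 : t ≤ 1)
    {Φ : (I → Bool) → ℝ} (hΦ : ∀ z, Φ z ≤ 1) : Ex (ber t) Φ ≤ 1 :=
  (Ex_mono (G := fun _ => (1 : ℝ)) (ber_nonneg_m h0 h1) hΦ).trans
    (le_of_eq (Ex_const (ber_sum_m t) 1))

theorem stages_ind {n u : ℕ} (hn : 5 ≤ n) (hu : 8 * u ≤ n) (m ℓ : ℕ)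
    (Ψ : (List Bool → Bool) → (X → Bool) → ℝ) (h0 : ∀ g v, 0 ≤ Ψ g v) (h1 : ∀ g v, Ψ g v ≤ 1)
    (hloc : ∀ g g' v, (∀ y : List Bool, y.length ≤ ℓ → g y = g' y) → Ψ g v = Ψ g' v)
    (β : ℝ) (hβ : 0 ≤ β) (W0 : (X → Option Bool) → ℝ) (hW : ∀ s, 0 ≤ W0 s) (b : Bool)
    (hfin : ∀ (s : X → Option Bool) (G : List Bool → (X → Bool) → Bool),
      (∀ y : List Bool, y.length ≤ ℓ → DTr (2 ^ (2 * u)) (G y)) →
      Ex (ber (1 / 2 ^ (4 * n))) (fun z : X → Bool => Ψ (fun y => G y z) (val s z)) ≤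
        β + W0 s) :
    ∀ (cs : List ℕ) (s : Idx X cs → Option Bool) (F : List Bool → (Idx X cs → Bool) → Bool),
      (∀ y : List Bool, y.length ≤ ℓ + cs.length * (2 * m + 1) → DTr (2 ^ (2 * u)) (F y)) →
      Ex (ber (1 / 2 ^ (4 * n))) (fun z : Idx X cs → Bool =>
        Ψ (fun y => QF m F cs.length b y z) (Tr cs (val s z))) ≤
      cs.length * (2 ^ (ℓ + cs.length * (2 * m + 1) + 2) * (1 / 2) ^ (2 ^ (2 * u) + 1)) + β +
        WT (1 / 2 ^ (4 * n)) (1 / 2 ^ (2 * n)) (8 * n * 2 ^ (4 * n)) W0 cs s := by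
  classical
  set t : ℝ := 1 / 2 ^ (4 * n) with ht
  set ξ : ℝ := 1 / 2 ^ (2 * n) with hξ
  set smin : ℕ := 8 * n * 2 ^ (4 * n) with hsmin
  set r : ℕ := 2 ^ (2 * u) with hr
  have ht0 : 0 < t := by positivity
  have ht2 : t ≤ 1 / 2 := by
    rw [ht]
    apply one_div_le_one_div_of_le (by norm_num)
    calc (2 : ℝ) = 2 ^ 1 := by norm_num
      _ ≤ 2 ^ (4 * n) := pow_le_pow_right₀ (by norm_num) (by omega)
  have ht1 : t < 1 := by linarith
  have hξ0 : 0 < ξ := by positivity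
  have hξ1 : ξ ≤ 1 := by
    rw [hξ, div_le_one (by positivity)]
    exact one_le_pow₀ (by norm_num)
  have hs1 : 1 ≤ smin := by
    rw [hsmin]
    have : 0 < 8 * n * 2 ^ (4 * n) := by positivity
    omega
  have hr1 : 1 ≤ r := Nat.one_le_two_pow
  obtain ⟨hl1, hl2, hl3⟩ := lam_bound hn hu
  have hlam4 : (1 : ℝ) / 2 ^ (6 * n) ≤ 1 / 4 := by
    apply one_div_le_one_div_of_le (by norm_num)
    calc (4 : ℝ) = 2 ^ 2 := by norm_num
      _ ≤ 2 ^ (6 * n) := pow_le_pow_right₀ (by norm_num) (by omega)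
  -- the condition for the nonnegativity of the weights
  have hcond : (1 - ξ) * (1 - t) ^ smin / t + ξ * (1 - t) ^ smin ≤ 1 := by
    have h1 : (1 - t) ^ smin / t ≤ 1 / 4 := hl1.trans hlam4
    have h2 : (1 - t) ^ smin ≤ 1 / 4 := by
      have h3 : (1 - t) ^ smin ≤ 1 / 4 * t := (div_le_iff₀ ht0).1 h1
      nlinarith
    have h0 : 0 ≤ (1 - t) ^ smin := pow_nonneg (by linarith) _
    have h5 : 0 ≤ (1 - t) ^ smin / t := by positivity
    have h3 : (1 - ξ) * (1 - t) ^ smin / t ≤ (1 - t) ^ smin / t := by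
      rw [mul_div_assoc]
      nlinarith
    have h4 : ξ * (1 - t) ^ smin ≤ (1 - t) ^ smin := by nlinarith
    linarith
  intro cs
  induction cs with
  | nil =>
    intro s F hF
    have h2 := hfin s F (fun y hy => hF y (by omega))
    have e0 : ∀ (y : List Bool), QF m F 0 b y = F y := by
      intro y; cases b <;> rfl
    have h3 : Ex (ber t) (fun z : Idx X [] → Bool =>
        Ψ (fun y => QF m F 0 b y z) (Tr [] (val s z))) ≤ β + W0 s := by
      simp only [e0]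
      exact h2
    refine h3.trans (le_of_eq ?_)
    show β + W0 s = ((0 : ℕ) : ℝ) * _ + β + W0 s
    simp
  | cons c cs ih =>
    intro s F hF
    set k : ℕ := cs.length with hk
    have hlen : (c :: cs).length = k + 1 := rfl
    rw [hlen]
    have hst := stages_stage (t' := t) (ξ := ξ) (smin := smin) ht0 ht1 ht0 hs1 cs s
      (fun z v => Ψ (fun y => QF m F (k + 1) b y z) v)
    rw [hst]
    have hℓ : ℓ + (k + 1) * (2 * m + 1) = ℓ + k * (2 * m + 1) + (2 * m + 1) := by ring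
    have hsw := stage_switch (G := Idx X cs) (c := c) (smin := smin) (r := r) (t := t) (t' := t)
      (ξ := ξ) (lam := 1 / 2 ^ (6 * n)) ht0 ht2 ht0 ht1.le hξ0 hξ1 hs1 hl1 hlam4 hr1 hl3 s m
      (ℓ + k * (2 * m + 1)) F (fun y' hy' => hF y' (by rw [hlen, hℓ]; exact hy'))
    set bad : (Idx X cs → St c) → Prop := fun ρ => ¬ ∀ y : List Bool,
      y.length ≤ ℓ + k * (2 * m + 1) → ∀ b,
      DTr r (fun z : Idx X cs → Bool => QF m F 1 b y (XX s ρ z)) with hbad
    have hnn : ∀ ρ : Idx X cs → St c, 0 ≤ wt (G := Idx X cs) t t ξ smin s ρ := fun ρ =>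
      wt_nonneg ht0 ht1 ht0 hξ0.le hξ1 hs1 hcond s ρ
    set E₁ : ℝ := k * (2 ^ (ℓ + k * (2 * m + 1) + 2) * (1 / 2) ^ (r + 1)) with hE₁
    have hE₁0 : 0 ≤ E₁ := by positivity
    have hterm : ∀ ρ : Idx X cs → St c, wt (G := Idx X cs) t t ξ smin s ρ *
        Ex (ber t) (fun z : Idx X cs → Bool =>
          Ψ (fun y => QF m F (k + 1) b y (XX (G := Idx X cs) s ρ z))
            (Tr cs (val (fun h => (ρ h).1) z)))
        ≤ wt (G := Idx X cs) t t ξ smin s ρ * (if bad ρ then (1 : ℝ) else 0) +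
          wt (G := Idx X cs) t t ξ smin s ρ * (E₁ + β) +
          wt (G := Idx X cs) t t ξ smin s ρ * WT t ξ smin W0 cs (fun h => (ρ h).1) := by
      intro ρ
      rw [← mul_add, ← mul_add]
      apply mul_le_mul_of_nonneg_left _ (hnn ρ)
      by_cases hb : bad ρ
      · rw [if_pos hb]
        have h3 := stages_Ex_le_one (I := Idx X cs) ht0.le ht1.le (fun z : Idx X cs → Bool =>
          h1 (fun y => QF m F (k + 1) b y (XX (G := Idx X cs) s ρ z))
            (Tr cs (val (fun h => (ρ h).1) z)))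
        have h4 : 0 ≤ WT t ξ smin W0 cs (fun h : Idx X cs => (ρ h).1) :=
          stages_WT_nonneg ht0 ht1 hξ0.le hξ1 hs1 hcond hW cs _
        linarith
      · rw [if_neg hb, zero_add]
        have hgood : ∀ y : List Bool, y.length ≤ ℓ + k * (2 * m + 1) → ∀ b,
          DTr r (fun z : Idx X cs → Bool => QF m F 1 b y (XX s ρ z)) := not_not.1 hb
        have h5 := ih (fun h => (ρ h).1)
          (fun y' z => QF m F 1 (bot b k) y' (XX (G := Idx X cs) s ρ z))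
          (fun y' hy' => hgood y' hy' _)
        refine le_trans (le_of_eq ?_) h5
        congr 1
        funext z
        congr 1
        funext y
        rw [QF_peel, QF_comp m (fun y' => QF m F 1 (bot b k) y') (XX (G := Idx X cs) s ρ)]
    refine (Finset.sum_le_sum fun ρ _ => hterm ρ).trans ?_
    rw [Finset.sum_add_distrib, Finset.sum_add_distrib, ← Finset.sum_mul,
      wt_sum ht0 ht1 ht0 hs1 s, one_mul]
    have h6 : 2 ^ (ℓ + k * (2 * m + 1) + 2) * (16 * (r : ℝ) * (1 / 2 ^ (6 * n))) ^ (r + 1) ≤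
        2 ^ (ℓ + (k + 1) * (2 * m + 1) + 2) * (1 / 2) ^ (r + 1) := by
      apply mul_le_mul
      · apply pow_le_pow_right₀ (by norm_num)
        rw [hℓ]; omega
      · exact pow_le_pow_left₀ (by positivity) hl2 _
      · positivity
      · positivity
    have h7 : E₁ ≤ k * (2 ^ (ℓ + (k + 1) * (2 * m + 1) + 2) * (1 / 2) ^ (r + 1)) := by
      rw [hE₁]
      apply mul_le_mul_of_nonneg_left _ (by positivity)
      apply mul_le_mul_of_nonneg_right _ (by positivity)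
      apply pow_le_pow_right₀ (by norm_num)
      rw [hℓ]; omega
    have h8 := hsw.trans h6
    have h8' : ∑ ρ : Idx X cs → St c, wt (G := Idx X cs) t t ξ smin s ρ *
        (if bad ρ then (1 : ℝ) else 0) ≤
        2 ^ (ℓ + (k + 1) * (2 * m + 1) + 2) * (1 / 2) ^ (r + 1) := by
      refine le_trans (le_of_eq (Finset.sum_congr rfl fun ρ _ => ?_)) h8
      exact congrArg (fun q => wt (G := Idx X cs) t t ξ smin s ρ * q) (if_congr Iff.rfl rfl rfl)
    have hWT : ∑ ρ : Idx X cs → St c, wt (G := Idx X cs) t t ξ smin s ρ *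
        WT t ξ smin W0 cs (fun h => (ρ h).1) = WT t ξ smin W0 (c :: cs) s := rfl
    rw [hWT]
    push_cast
    have h9 : ((k : ℝ) + 1) * (2 ^ (ℓ + (k + 1) * (2 * m + 1) + 2) * (1 / 2) ^ (r + 1)) =
      k * (2 ^ (ℓ + (k + 1) * (2 * m + 1) + 2) * (1 / 2) ^ (r + 1)) +
        2 ^ (ℓ + (k + 1) * (2 * m + 1) + 2) * (1 / 2) ^ (r + 1) := by ring
    rw [h9]
    linarith

theorem stages_leaf' {n u : ℕ} (hn : 5 ≤ n) (hu : 8 * u ≤ n) (m ℓ : ℕ)
    (Ψ : (List Bool → Bool) → (X → Bool) → ℝ) (h0 : ∀ g v, 0 ≤ Ψ g v) (h1 : ∀ g v, Ψ g v ≤ 1)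
    (hloc : ∀ g g' v, (∀ y : List Bool, y.length ≤ ℓ → g y = g' y) → Ψ g v = Ψ g' v)
    (β : ℝ) (hβ : 0 ≤ β) (W0 : (X → Option Bool) → ℝ) (hW : ∀ s, 0 ≤ W0 s) (b : Bool)
    (hfin : ∀ (s : X → Option Bool) (G : List Bool → (X → Bool) → Bool),
      (∀ y : List Bool, y.length ≤ ℓ → DTr (2 ^ (2 * u)) (G y)) →
      Ex (ber (1 / 2 ^ (4 * n))) (fun z : X → Bool => Ψ (fun y => G y z) (val s z)) ≤
        β + W0 s)
    (cs : List ℕ) (F : List Bool → (Idx X (8 * n :: cs) → Bool) → Bool)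
    (hF : ∀ y : List Bool, y.length ≤ ℓ + cs.length * (2 * m + 1) → DTr (2 ^ (2 * u)) (F y)) :
    Ex (ber (1 / 2)) (fun a : Idx X (8 * n :: cs) → Bool =>
      Ψ (fun y => QF m F cs.length b y a) (Tr (8 * n :: cs) a)) ≤
      cs.length * (2 ^ (ℓ + cs.length * (2 * m + 1) + 2) * (1 / 2) ^ (2 ^ (2 * u) + 1)) + β +
        Ex (lawit (1 / 2 ^ (4 * n)) (1 / 2 ^ (2 * n)) (8 * n * 2 ^ (4 * n)) cs (law1 n)) W0 := by
  classical
  set k : ℕ := cs.length with hk
  set t : ℝ := 1 / 2 ^ (4 * n) with ht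
  have ht0 : 0 < t := by positivity
  have hpow : (1 - 1 / 2 : ℝ) ^ (8 * n) / t ≤ 1 := by
    rw [ht, div_le_one (by positivity)]
    rw [show (1 - 1 / 2 : ℝ) = 1 / 2 by norm_num, one_div_pow]
    apply one_div_le_one_div_of_le (by positivity)
    exact pow_le_pow_right₀ (by norm_num) (by omega)
  have hs1 : 1 ≤ 8 * n := by omega
  have hcond : (1 - 0) * (1 - 1 / 2 : ℝ) ^ (8 * n) / t + 0 * (1 - 1 / 2 : ℝ) ^ (8 * n) ≤ 1 := by
    rw [zero_mul, add_zero, sub_zero, one_mul]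
    exact hpow
  set s0 : Idx X (8 * n :: cs) → Option Bool := fun _ => none with hs0
  have hst := stages_stage (t := 1 / 2) (t' := t) (ξ := 0) (smin := 8 * n) (by norm_num)
    (by norm_num) ht0 hs1 cs s0 (fun z v => Ψ (fun y => QF m F k b y z) v)
  have hv : ∀ z : Idx X (8 * n :: cs) → Bool, val s0 z = z := fun z => rfl
  simp only [hv] at hst
  rw [hst]
  set E : ℝ := k * (2 ^ (ℓ + k * (2 * m + 1) + 2) * (1 / 2) ^ (2 ^ (2 * u) + 1)) + β with hE
  set W := WT t (1 / 2 ^ (2 * n)) (8 * n * 2 ^ (4 * n)) W0 cs with hWd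
  have hterm : ∀ ρ : Idx X cs → St (8 * n),
      wt (G := Idx X cs) (1 / 2) t 0 (8 * n) s0 ρ *
        Ex (ber t) (fun z : Idx X cs → Bool => Ψ (fun y => QF m F k b y (XX (G := Idx X cs) s0 ρ z))
          (Tr cs (val (fun h => (ρ h).1) z))) ≤
      wt (G := Idx X cs) (1 / 2) t 0 (8 * n) s0 ρ * E +
        wt (G := Idx X cs) (1 / 2) t 0 (8 * n) s0 ρ * W (fun h => (ρ h).1) := by
    intro ρ
    rw [← mul_add]
    apply mul_le_mul_of_nonneg_left _
      (wt_nonneg (by norm_num) (by norm_num) ht0 le_rfl zero_le_one hs1 hcond s0 ρ)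
    have h5 := stages_ind hn hu m ℓ Ψ h0 h1 hloc β hβ W0 hW b hfin cs (fun h => (ρ h).1)
      (fun y' z => F y' (XX (G := Idx X cs) s0 ρ z))
      (fun y' hy' => DTr_XX (G := Idx X cs) s0 ρ (hF y' hy'))
    refine le_trans (le_of_eq ?_) h5
    congr 1
    funext z
    congr 1
    funext y
    rw [QF_comp m F (XX (G := Idx X cs) s0 ρ)]
  refine (Finset.sum_le_sum fun ρ _ => hterm ρ).trans ?_
  rw [Finset.sum_add_distrib, ← Finset.sum_mul,
    wt_sum (by norm_num) (by norm_num) ht0 hs1 s0, one_mul]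
  have h8 := law_stage (G := Idx X cs) (c := 8 * n) (smin := 8 * n) (t := 1 / 2) (t' := t) (ξ := 0)
    law0 W
  rw [Ex_law0, Ex_WT] at h8
  rw [law1, ← ht, ← h8]
  exact le_of_eq rfl

theorem stages_leaf {n u : ℕ} (hn : 5 ≤ n) (hu : 8 * u ≤ n) (m ℓ : ℕ)
    (Ψ : (List Bool → Bool) → (X → Bool) → ℝ) (h0 : ∀ g v, 0 ≤ Ψ g v) (h1 : ∀ g v, Ψ g v ≤ 1)
    (hloc : ∀ g g' v, (∀ y : List Bool, y.length ≤ ℓ → g y = g' y) → Ψ g v = Ψ g' v)
    (β : ℝ) (hβ : 0 ≤ β) (W0 : (X → Option Bool) → ℝ) (hW : ∀ s, 0 ≤ W0 s) (b : Bool)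
    (hfin : ∀ (s : X → Option Bool) (G : List Bool → (X → Bool) → Bool),
      (∀ y : List Bool, y.length ≤ ℓ → DTr (2 ^ (2 * u)) (G y)) →
      Ex (ber (1 / 2 ^ (4 * n))) (fun z : X → Bool => Ψ (fun y => G y z) (val s z)) ≤
        β + W0 s)
    (as : List ℕ) (F : List Bool → (Idx X (8 * n :: pw as) → Bool) → Bool)
    (hF : ∀ y : List Bool, y.length ≤ ℓ + as.length * (2 * m + 1) → DTr (2 ^ (2 * u)) (F y)) :
    Ex (ber (1 / 2)) (fun a : Idx X (8 * n :: pw as) → Bool =>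
      Ψ (fun y => QF m F as.length b y a) (Tr (8 * n :: pw as) a)) ≤
      as.length * (2 ^ (ℓ + as.length * (2 * m + 1) + 2) * (1 / 2) ^ (2 ^ (2 * u) + 1)) + β +
        Ex (lawr n as) W0 := by
  have hlen : as.length = (pw as).length := by rw [pw, List.length_map]
  rw [hlen] at hF ⊢
  exact stages_leaf' hn hu m ℓ Ψ h0 h1 hloc β hβ W0 hW b hfin (pw as) F hF

end D

end Pool.Agent.H943R4.CX
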