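import Pool.Agent.H943R4.CX.Obj
import Pool.Agent.H620R2.Gauge.Y
import Pool.Agent.H620R2.Gauge.M

/-! Stubs. Never import this file in a finished file. -/

set_option autoImplicit false

namespace Pool.Agent.H943R4.CX

open Finset H568R2 Pool.Agent.H676 Pool.Agent.H620R2.Gauge Pool.Agent.H591R3.PHG Pool.Agent.NPC
open Pool.Agent.H943R4.BA

/-! ### Task A: file `ProcEx.lean` -/

section A
variable {I : Type} [DecidableEq I]

theorem Proc.mono {D D' : ℕ} (hD : D ≤ D') {h : (I → Bool) → ℕ} (hp : Proc D h) :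
    Proc D' h := by sorry

/-- the exponential moment of the number of hits -/
theorem Proc.ex [Fintype I] {t l : ℝ} (ht : 0 ≤ t) (ht1 : t ≤ 1) (hl : 0 ≤ l) {D : ℕ}
    {h : (I → Bool) → ℕ} (hp : Proc D h) :
    Ex (ber t) (fun z : I → Bool => (1 + l) ^ (h z)) ≤ (1 + l * t) ^ D := by sorry

end A

open Classical in
/-- the probability that all the rows are won (uses `proc_game`, task B) -/
theorem game_bound {X : Type} [Fintype X] [DecidableEq X] {Y q D g : ℕ} {t l : ℝ} (ht : 0 ≤ t)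
    (ht1 : t ≤ 1) (hl : 0 ≤ l) (s : X × Fin Y → Option Bool)
    (mv : X → List ℕ → (X × Fin Y → Bool) → ℕ)
    (hmv : ∀ j (h : List ℕ), h.length < q → (∀ y ∈ h, y ≤ Y) → DTv D (mv j h)) :
    Ex (ber t) (fun z : X × Fin Y → Bool =>
      if ∀ j, Win (val s z) j (fun h => mv j h z) q then (1 : ℝ) else 0) ≤
      (1 + l * t) ^ (Fintype.card X * (q * (D + 1))) / (1 + l) ^ g +
        Ex (ber t) (fun z : X × Fin Y → Bool =>
          if Fintype.card X < g + (univ.filter (fun j => Bad s (val s z) j q)).card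
          then (1 : ℝ) else 0) := by sorry

/-! ### Task B: file `Game.lean` (the main task) -/

open Classical in
theorem proc_game {X : Type} [Fintype X] [DecidableEq X] {Y q D : ℕ}
    (s : X × Fin Y → Option Bool) (mv : X → List ℕ → (X × Fin Y → Bool) → ℕ)
    (hmv : ∀ j (h : List ℕ), h.length < q → (∀ y ∈ h, y ≤ Y) → DTv D (mv j h)) :
    Proc (Fintype.card X * (q * (D + 1))) (fun z : X × Fin Y → Bool =>
      (univ.filter (fun j => Win (val s z) j (fun h => mv j h z) q ∧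
        ¬ Bad s (val s z) j q)).card) := by sorry

/-! ### Task C: file `Rows.lean` -/

open Classical in
theorem few_rows {X A : Type} [Fintype X] [DecidableEq X] [Fintype A] {c : ℕ} {w : A → ℝ}
    (hw : ∀ a, 0 ≤ w a) (hs : ∑ a, w a = 1) (G : (Fin c → A) → Prop)
    (hG : ∑ σ : Fin c → A, (∏ i, w (σ i)) * (if G σ then (1 : ℝ) else 0) ≤ 1 / 16) :
    Ex w (fun ω : X × Fin c → A =>
      if Fintype.card X ≤ 2 * (univ.filter (fun j => G (fun i => ω (j, i)))).card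
      then (1 : ℝ) else 0) ≤ (1 / 2) ^ Fintype.card X := by sorry

/-- two independent families -/
theorem Ex_prod {I A B : Type} [Fintype I] [DecidableEq I] [Fintype A] [Fintype B]
    (w : A → ℝ) (w' : B → ℝ) (Φ : (I → A) → (I → B) → ℝ) :
    Ex w (fun s => Ex w' (fun z => Φ s z)) =
      Ex (fun a : A × B => w a.1 * w' a.2) (fun ω => Φ (fun i => (ω i).1) (fun i => (ω i).2)) := by
  sorry

open Classical in
/-- the probability that a row is bad -/
theorem row_bad {Y q : ℕ} {t : ℝ} (ht : 0 ≤ t) (ht1 : t ≤ 1) {law : Option Bool → ℝ}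
    (hn : ∀ v, 0 ≤ law v) (hs : ∑ v, law v = 1) :
    ∑ σ : Fin Y → Option Bool × Bool, (∏ i, law (σ i).1 * ber t (σ i).2) *
      (if BadRow q σ then (1 : ℝ) else 0) ≤
      Y * law (some true) + 2 ^ q * (1 - (t * law none + law (some true)) / 2) ^ Y := by sorry

/-! ### Task D: file `Stages.lean` (adapt `main_ind` and `main_leaf` of H591R3/PHG/Main.lean) -/

section D
variable {X : Type} [Fintype X] [DecidableEq X]

theorem Ex_WT (t ξ : ℝ) (smin : ℕ) (W0 : (X → Option Bool) → ℝ) :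
    ∀ (cs : List ℕ) (law : Option Bool → ℝ),
      Ex law (WT t ξ smin W0 cs) = Ex (lawit t ξ smin cs law) W0 := by sorry

theorem stages_ind {n u : ℕ} (hn : 5 ≤ n) (hu : 8 * u ≤ n) (m ℓ : ℕ)
    (Ψ : (List Bool → Bool) → (X → Bool) → ℝ) (h0 : ∀ g v, 0 ≤ Ψ g v) (h1 : ∀ g v, Ψ g v ≤ 1)
    (hloc : ∀ g g' v, (∀ y : List Bool, y.length ≤ ℓ → g y = g' y) → Ψ g v = Ψ g' v)
    (β : ℝ) (hβ : 0 ≤ β) (W0 : (X → Option Bool) → ℝ) (hW : ∀ s, 0 ≤ W0 s) (b : Bool)
    (hfin : ∀ (s : X → Option Bool) (G : List Bool → (X → Bool) → Bool),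
      (∀ y : List Bool, y.length ≤ ℓ → DTr (2 ^ (2 * u)) (G y)) →
      Ex (ber (1 / 2 ^ (4 * n))) (fun z : X → Bool => Ψ (fun y => G y z) (val s z)) ≤
        β + W0 s) :
    ∀ (cs : List ℕ) (s : Idx X cs → Option Bool) (F : List Bool → (Idx X cs → Bool) → Bool),
      (∀ y : List Bool, y.length ≤ ℓ + cs.length * (2 * m + 1) → DTr (2 ^ (2 * u)) (F y)) →
      Ex (ber (1 / 2 ^ (4 * n))) (fun z : Idx X cs → Bool =>
        Ψ (fun y => QF m F cs.length b y z) (Tr cs (val s z))) ≤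
      cs.length * (2 ^ (ℓ + cs.length * (2 * m + 1) + 2) * (1 / 2) ^ (2 ^ (2 * u) + 1)) + β +
        WT (1 / 2 ^ (4 * n)) (1 / 2 ^ (2 * n)) (8 * n * 2 ^ (4 * n)) W0 cs s := by sorry

theorem stages_leaf {n u : ℕ} (hn : 5 ≤ n) (hu : 8 * u ≤ n) (m ℓ : ℕ)
    (Ψ : (List Bool → Bool) → (X → Bool) → ℝ) (h0 : ∀ g v, 0 ≤ Ψ g v) (h1 : ∀ g v, Ψ g v ≤ 1)
    (hloc : ∀ g g' v, (∀ y : List Bool, y.length ≤ ℓ → g y = g' y) → Ψ g v = Ψ g' v)
    (β : ℝ) (hβ : 0 ≤ β) (W0 : (X → Option Bool) → ℝ) (hW : ∀ s, 0 ≤ W0 s) (b : Bool)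
    (hfin : ∀ (s : X → Option Bool) (G : List Bool → (X → Bool) → Bool),
      (∀ y : List Bool, y.length ≤ ℓ → DTr (2 ^ (2 * u)) (G y)) →
      Ex (ber (1 / 2 ^ (4 * n))) (fun z : X → Bool => Ψ (fun y => G y z) (val s z)) ≤
        β + W0 s)
    (as : List ℕ) (F : List Bool → (Idx X (8 * n :: pw as) → Bool) → Bool)
    (hF : ∀ y : List Bool, y.length ≤ ℓ + as.length * (2 * m + 1) → DTr (2 ^ (2 * u)) (F y)) :
    Ex (ber (1 / 2)) (fun a : Idx X (8 * n :: pw as) → Bool =>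
      Ψ (fun y => QF m F as.length b y a) (Tr (8 * n :: pw as) a)) ≤
      as.length * (2 ^ (ℓ + as.length * (2 * m + 1) + 2) * (1 / 2) ^ (2 ^ (2 * u) + 1)) + β +
        Ex (lawr n as) W0 := by sorry

end D

/-! ### Task E: file `Sizes.lean` -/

theorem exists_sizes0 {n : ℕ} (hn : 5 ≤ n) (i : ℕ) :
    ∃ as : List ℕ, as.length = i ∧ (∀ a ∈ as, a ≤ 64 * n) ∧ Inv n (lawr n as) := by sorry

theorem exists_L {n : ℕ} (hn : 5 ≤ n) {law : Option Bool → ℝ} (h : Inv n law) :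
    ∃ L : ℕ, L ≤ 65 * n ∧ 16 * n * 2 ^ n ≤ (2 : ℝ) ^ L * pT n law ∧
      (2 : ℝ) ^ L * pT n law < 32 * n * 2 ^ n := by sorry

/-- a row is bad with probability at most `1/16` -/
theorem row_num {n u q L : ℕ} (hn : 20 ≤ n) (hu : 8 * u ≤ n) (hq : q ≤ 2 ^ (2 * u))
    {law : Option Bool → ℝ} (h : Inv n law) (h1 : 16 * n * 2 ^ n ≤ (2 : ℝ) ^ L * pT n law)
    (h2 : (2 : ℝ) ^ L * pT n law < 32 * n * 2 ^ n) :
    ((2 ^ L : ℕ) : ℝ) * law (some true) +
      2 ^ q * (1 - (1 / 2 ^ (4 * n) * law none + law (some true)) / 2) ^ (2 ^ L) ≤ 1 / 16 := by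
  sorry

theorem hits_num {n u q D : ℕ} (hn : 20 ≤ n) (hu : 8 * u ≤ n) (hq : q ≤ 2 ^ (2 * u))
    (hD : D ≤ 2 ^ (4 * u)) :
    (1 + (2 : ℝ) ^ n * (1 / 2 ^ (4 * n))) ^ (2 ^ (u + 11) * (q * (D + 1))) /
      (1 + 2 ^ n) ^ (2 ^ (u + 10)) + (1 / 2) ^ (2 ^ (u + 11)) ≤ 3 * (1 / 2) ^ (2 ^ u) := by sorry

/-! ### Task F: file `Dtv.lean` -/

theorem DTv.map {I α β : Type} [DecidableEq I] (φ : α → β) {k : ℕ} {f : (I → Bool) → α}
    (h : DTv k f) : DTv k (fun z => φ (f z)) := by sorry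

theorem DTv.mono {I α : Type} [DecidableEq I] {k k' : ℕ} (hk : k ≤ k') {f : (I → Bool) → α}
    (h : DTv k f) : DTv k' f := by sorry

/-- an algorithm whose oracle answers are decision trees is a decision tree -/
theorem dtv_out {J : Type} [Fintype J] [DecidableEq J] (M : Alg) {r : ℕ}
    (G : List Bool → (J → Bool) → Bool) (hG : ∀ w, DTr r (G w)) (y : List Bool) :
    DTv (M.p.eval y.length * r) (fun z : J → Bool => M.out (fun w => G w z) y) := by sorry

/-! ### Task G: file `QfAlt.lean` -/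

/-- the converse of `exists_QF` -/
theorem alt_QF {I : Type} [Fintype I] [DecidableEq I] {m r : ℕ}
    (F : List Bool → (I → Bool) → Bool) :
    ∀ (k : ℕ) (b : Bool) (w : List Bool),
      (∀ y : List Bool, y.length ≤ w.length + k * (2 * m + 1) → DTr r (F y)) →
      Alt m r k b (QF m F k b w) := by sorry

/-! ### Task H1: file `SigmaPre.lean` -/

/-- levels of the hierarchy and polynomial-time preprocessing -/
theorem sigma_pre {A : Oracle} {k : ℕ} {L : Set (List Bool)} (h : IsSigma A k L)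
    {f d e : List Bool → List Bool} (hf : PolyTime f) (hd : PolyTime d) (he : PolyTime e) :
    IsSigma A k {c | d c = [true] ∨ (e c = [true] ∧ f c ∈ L)} := by sorry

/-! ### Task H2: file `HardC.lean` (may use `sigma_pre`) -/

theorem nodeV_sigma (i : ℕ) (A : Oracle) : IsSigma A i {q | nodeV i A q = false} := by sorry

theorem cc_opt (i : ℕ) (A : Oracle) : OptProblem A i (CC i A) id := by sorry

/-! ### Task J: file `Inp.lean` -/

theorem rts_inj (as : List ℕ) (n L K : ℕ) (hK : K ≤ 2 ^ (n + 11)) :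
    Function.Injective (rts as n L K) := by sorry

theorem rts_len (as : List ℕ) (n L K : ℕ) (p : Fin K × Fin (2 ^ L)) :
    (rts as n L K p).length = 2 * as.sum + as.length + 16 * n + 3 * L + n + 13 := by sorry

theorem str_xin (as : List ℕ) (n L j : ℕ) : str (xin as n L j) = enc as (8 * n) (tl n L j) := by
  sorry

theorem len_xin (as : List ℕ) (n L j : ℕ) :
    (str (xin as n L j)).length = 2 * as.sum + as.length + 16 * n + 2 * L + n + 13 := by sorry

/-- the feasible solutions are given by the values of the trees -/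
theorem feas_iff (A : Oracle) {as : List ℕ} {i : ℕ} (hi : as.length = i) (n L K : ℕ) (j : Fin K)
    (y : ℕ) :
    feas (fun p : Fin K × Fin (2 ^ L) =>
      Tr (8 * n :: pw as) (leaves (rts as n L K) as (8 * n) A) p) j y ↔
      CC i A (xin as n L j.val) y := by sorry

/-! ### Task K: file `WinC.lean` -/

theorem hist_eq (x : ℕ) (z : ℕ → ℕ) (t : ℕ) :
    hist x z t = hs x ((List.range t).reverse.map z) := by sorry

theorem hs_len (x : ℕ) {B : ℕ} {h : List ℕ} (hb : ∀ y ∈ h, (str y).length ≤ B) :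
    (hs x h).length ≤ (str x).length + h.length * (2 * B + 1) := by sorry

/-- the answers of the adversary are bounded -/
theorem play_le {X : Type} {Y : ℕ} (v : X × Fin Y → Bool) (j : X) (mv : List ℕ → ℕ) (t : ℕ) :
    ∀ y ∈ play v j mv t, y ≤ Y := by sorry

theorem win_of_computed {X : Type} {Y : ℕ} (v : X × Fin Y → Bool) (j : X) {C : ℕ → ℕ → Prop}
    {x : ℕ} (hle : ∀ y, C x y → y ≤ x) (hC : ∀ y, feas v j y ↔ C x y)
    (F : List Bool → List Bool) (q : ℕ)
    (h : ∀ z : ℕ → ℕ, ∃ t < q, ∀ y : ℕ, F (hist x z t) = str y → ¬ Counter C id x y (z t)) :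
    Win v j (fun l => idx (F (hs x l))) q := by sorry

/-! ### Task L: file `EvC.lean` (uses tasks A - G) -/

open Classical in
theorem ev_boundC {n u N m ℓ L q : ℕ} (hn : 20 ≤ n) (hu : 8 * u ≤ n) (as : List ℕ)
    (hinv : Inv n (lawr n as)) (h1 : 16 * n * 2 ^ n ≤ (2 : ℝ) ^ L * pT n (lawr n as))
    (h2 : (2 : ℝ) ^ L * pT n (lawr n as) < 32 * n * 2 ^ n) (hq : q ≤ 2 ^ (2 * u))
    (e : Idx (Fin (2 ^ (u + 11)) × Fin (2 ^ L)) (8 * n :: pw as) → Fin N)
    (he : Function.Injective e) (g : List Bool → (Fin N → Bool) → Bool)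
    (hg : ∀ w : List Bool, w.length ≤ ℓ → Alt m (2 ^ (2 * u)) as.length true (g w))
    (M : Alg) (x : Fin (2 ^ (u + 11)) → ℕ)
    (hM : ∀ j (h : List ℕ), h.length < q → (∀ y ∈ h, y ≤ 2 ^ L) →
      M.p.eval (hs (x j) h).length ≤ 2 ^ (2 * u) ∧
      ∀ g g' : List Bool → Bool, (∀ w : List Bool, w.length ≤ ℓ → g w = g' w) →
        M.out g (hs (x j) h) = M.out g' (hs (x j) h)) :
    Ex unif (fun a : Fin N → Bool => if ∀ j,
      Win (fun p : Fin (2 ^ (u + 11)) × Fin (2 ^ L) =>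
          Tr (8 * n :: pw as) (fun h => a (e h)) p) j
        (fun h => mvd M (fun w => g w a) (hs (x j) h)) q then (1 : ℝ) else 0) ≤
      as.length * (2 ^ (ℓ + as.length * (2 * m + 1) + 2) * (1 / 2) ^ (2 ^ (2 * u) + 1)) +
        3 * (1 / 2) ^ (2 ^ u) := by sorry

/-! ### Task M: file `CoverC.lean` (uses everything above) -/

theorem cover_easyC (θ : ParC) (f : ℕ → ℝ)
    (hf : ∀ ε : ℝ, 0 < ε → ∃ᶠ N : ℕ in Filter.atTop, f N ≤ 2 ^ (Real.logb 2 N) ^ ε)
    (δ : ℝ) (hδ : 0 < δ) : ∃ S : Set (List Bool), (∀ A ∈ EasyC θ, ∃ σ ∈ S, Extends A σ) ∧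
    ∑' σ : S, ENNReal.ofReal (2 ^ (f σ.1.length - σ.1.length)) ≤ ENNReal.ofReal δ := by sorry

theorem null_sideC (f : ℕ → ℝ)
    (hf : ∀ ε : ℝ, 0 < ε → ∃ᶠ N : ℕ in Filter.atTop, f N ≤ 2 ^ (Real.logb 2 N) ^ ε)
    (O : Set Oracle) (hO : ∀ A ∈ O, ∃ i, AllComputed A i) : Null f O := by sorry

/-! ### Task N: file `LowC.lean` (independent of everything else) -/

theorem allComputed_of_hard {A : Oracle}
    (hA : ∀ L, IsPSPACE A L → Reduces L {x | A x = true}) (i : ℕ) : AllComputed A i := by sorry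

end Pool.Agent.H943R4.CX
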