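import Pool.Agent.H943R4.CX.Obj
import Pool.Agent.H620R2.Gauge.S

/-!
# From computed problems to won games
-/

set_option autoImplicit false

namespace Pool.Agent.H943R4.CX

open Finset H568R2 Pool.Agent.H676 Pool.Agent.H620R2.Gauge Pool.Agent.H591R3.PHG Pool.Agent.NPC
open Pool.Agent.H943R4.BA

open Classical in
theorem K.adv_spec {X : Type} {Y : ℕ} (v : X × Fin Y → Bool) (j : X) (y : ℕ)
    (h : feas v j y ∧ ∃ y', y < y' ∧ feas v j y') :
    y < adv v j y ∧ feas v j (adv v j y) := by
  unfold adv
  rw [dif_pos h]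
  exact Nat.find_spec h.2

theorem K.adv_zero {X : Type} {Y : ℕ} (v : X × Fin Y → Bool) (j : X) (y : ℕ)
    (h : ¬ (feas v j y ∧ ∃ y', y < y' ∧ feas v j y')) : adv v j y = 0 := by
  unfold adv
  rw [dif_neg h]

theorem hist_eq (x : ℕ) (z : ℕ → ℕ) (t : ℕ) :
    hist x z t = hs x ((List.range t).reverse.map z) := by
  induction t with
  | zero => rfl
  | succ t ih =>
    rw [List.range_succ, List.reverse_append, List.reverse_singleton, List.singleton_append,
      List.map_cons, hist, hs, ih]

theorem hs_len (x : ℕ) {B : ℕ} {h : List ℕ} (hb : ∀ y ∈ h, (str y).length ≤ B) :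
    (hs x h).length ≤ (str x).length + h.length * (2 * B + 1) := by
  induction h with
  | nil => simp [hs]
  | cons z h ih =>
    have h1 := ih (fun y hy => hb y (List.mem_cons_of_mem _ hy))
    have h2 := hb z List.mem_cons_self
    rw [hs, length_pairBits, List.length_cons]
    have h3 : (h.length + 1) * (2 * B + 1) = h.length * (2 * B + 1) + (2 * B + 1) := by ring
    rw [h3]
    omega

/-- the answers of the adversary are bounded -/
theorem play_le {X : Type} {Y : ℕ} (v : X × Fin Y → Bool) (j : X) (mv : List ℕ → ℕ) (t : ℕ) :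
    ∀ y ∈ play v j mv t, y ≤ Y := by
  induction t with
  | zero => intro y hy; simp [play] at hy
  | succ t ih =>
    intro y hy
    rw [play, List.mem_cons] at hy
    rcases hy with hy | hy
    · rw [hy]
      by_cases h : feas v j (mv (play v j mv t)) ∧ ∃ y', mv (play v j mv t) < y' ∧ feas v j y'
      · rcases (K.adv_spec v j _ h).2 with h0 | ⟨i, hi, -⟩
        · rw [h0]; exact Nat.zero_le _
        · rw [hi]; exact i.2
      · rw [K.adv_zero v j _ h]; exact Nat.zero_le _
    · exact ih y hy

theorem win_of_computed {X : Type} {Y : ℕ} (v : X × Fin Y → Bool) (j : X) {C : ℕ → ℕ → Prop}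
    {x : ℕ} (hle : ∀ y, C x y → y ≤ x) (hC : ∀ y, feas v j y ↔ C x y)
    (F : List Bool → List Bool) (q : ℕ)
    (h : ∀ z : ℕ → ℕ, ∃ t < q, ∀ y : ℕ, F (hist x z t) = str y → ¬ Counter C id x y (z t)) :
    Win v j (fun l => idx (F (hs x l))) q := by
  by_contra hw
  unfold Win at hw
  push Not at hw
  set mv : List ℕ → ℕ := fun l => idx (F (hs x l)) with hmv
  set z : ℕ → ℕ := fun t => adv v j (mv (play v j mv t)) with hz
  have hr : ∀ t, (List.range t).reverse.map z = play v j mv t := by
    intro t
    induction t with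
    | zero => rfl
    | succ t ih =>
      rw [List.range_succ, List.reverse_append, List.reverse_singleton, List.singleton_append,
        List.map_cons, ih, play]
  obtain ⟨t, ht, H⟩ := h z
  have hb := hw t ht
  have H1 := H (mv (play v j mv t)) (by
    rw [hmv]
    show F (hist x z t) = str (idx (F (hs x (play v j mv t))))
    rw [str_idx, hist_eq, hr])
  apply H1
  by_cases hc : feas v j (mv (play v j mv t)) ∧ ∃ y', mv (play v j mv t) < y' ∧ feas v j y'
  · obtain ⟨s1, s2⟩ := K.adv_spec v j _ hc
    have s3 := (hC _).1 s2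
    exact ⟨hle _ s3, fun hh => hh.2 s1 s3⟩
  · have e : z t = 0 := K.adv_zero v j _ hc
    refine ⟨by rw [e]; exact Nat.zero_le _, fun hh => ?_⟩
    have f1 := (hC _).2 hh.1
    apply hb
    refine ⟨f1, fun y' hy' hf => hc ⟨f1, y', hy', hf⟩⟩

end Pool.Agent.H943R4.CX
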